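import Pool.Agent.Run7.h127.SD.Main

/-!
# Sums of dilates: Freiman homomorphisms, coverings, sets of small doubling, boxes
-/

set_option autoImplicit false
set_option linter.unusedSectionVars false

namespace Pool.Agent.Run7.h127.SD

open Finset
open scoped Pointwise

universe u v w

section hom

variable {Γ : Type u} [AddCommGroup Γ] {W : Type w} [AddCommGroup W]

/-- Freiman homomorphisms of order `q + 1` -/
lemma cm_of_freiman {q : ℕ} (hq : 1 ≤ q) {S : Set Γ} {g : Γ → W}
    (hg : IsAddFreimanHom (q + 1) S Set.univ g) {B A : Finset Γ} (hB : ∀ b ∈ B, b ∈ S)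
    (hA : ∀ a ∈ A, a ∈ S) : Cm q B A g g := by
  have key : ∀ b ∈ S, ∀ a ∈ S, ∀ b' ∈ S, ∀ a' ∈ S, b + q • a = b' + q • a' →
      g b + q • g a = g b' + q • g a' := by
    intro b hb a ha b' hb' a' ha' hh
    have h1 := hg.map_sum_eq_map_sum (s := b ::ₘ Multiset.replicate q a)
      (t := b' ::ₘ Multiset.replicate q a') (by
        intro z hz
        rw [Multiset.mem_cons] at hz
        rcases hz with rfl | hz
        · exact hb
        · rw [Multiset.eq_of_mem_replicate hz]
          exact ha) (by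
        intro z hz
        rw [Multiset.mem_cons] at hz
        rcases hz with rfl | hz
        · exact hb'
        · rw [Multiset.eq_of_mem_replicate hz]
          exact ha') (by simp) (by simp) (by
        simpa using hh)
    simpa using h1
  refine ⟨?_, ?_, ?_⟩
  · intro b hb a ha b' hb' a' ha' hh
    exact (hg.mono (by omega : 2 ≤ q + 1)).add_eq_add (hB b hb) (hA a ha) (hB b' hb') (hA a' ha') hh
  · intro b hb a ha b' hb' a' ha' hh
    exact key b (hB b hb) a (hA a ha) b' (hB b' hb') a' (hA a' ha') hh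
  · intro b hb a ha b' hb' a' ha' hh
    have h1 := key a (hA a ha) b (hB b hb) a' (hA a' ha') b' (hB b' hb') (by
      rw [add_comm a, hh, add_comm a'])
    rw [add_comm (g a), add_comm (g a')] at h1
    exact h1

lemma finrank_left (B A : Finset Γ) (g : Γ → W) :
    Module.finrank ℤ (Submodule.span ℤ (g '' (A : Set Γ) - g '' (A : Set Γ))) ≤
      Module.finrank ℤ (Submodule.span ℤ (dif B A g g)) := by
  have : Module.Finite ℤ (Submodule.span ℤ (dif B A g g)) :=
    Module.Finite.span_of_finite ℤ (finite_dif B A g g)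
  refine Submodule.finrank_mono (Submodule.span_mono ?_)
  rintro z ⟨_, ⟨a, ha, rfl⟩, _, ⟨a', ha', rfl⟩, rfl⟩
  exact Or.inr ⟨a, ha, a', ha', rfl⟩

lemma finrank_union [DecidableEq Γ] {B A : Finset Γ} (hB : B.Nonempty) (hA : A.Nonempty)
    (g : Γ → W) :
    Module.finrank ℤ (Submodule.span ℤ (g '' ((B ∪ A : Finset Γ) : Set Γ) -
        g '' ((B ∪ A : Finset Γ) : Set Γ))) ≤
      Module.finrank ℤ (Submodule.span ℤ (dif B A g g)) + 1 := by
  obtain ⟨b₀, hb₀⟩ := hB
  obtain ⟨a₀, ha₀⟩ := hA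
  obtain ⟨L, hL⟩ : ∃ L, L = Submodule.span ℤ (dif B A g g) := ⟨_, rfl⟩
  obtain ⟨M, hM⟩ : ∃ M, M = Submodule.span ℤ ({g b₀ - g a₀} : Set W) := ⟨_, rfl⟩
  have f1 : Module.Finite ℤ L := by
    rw [hL]
    exact Module.Finite.span_of_finite ℤ (finite_dif B A g g)
  have f2 : Module.Finite ℤ M := by
    rw [hM]
    exact Module.Finite.span_of_finite ℤ (Set.finite_singleton _)
  have h1 : Submodule.span ℤ (g '' ((B ∪ A : Finset Γ) : Set Γ) -
      g '' ((B ∪ A : Finset Γ) : Set Γ)) ≤ L ⊔ M := by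
    have h2 : ∀ z ∈ B ∪ A, g z - g a₀ ∈ L ⊔ M := by
      intro z hz
      rw [mem_union] at hz
      rcases hz with hz | hz
      · have h3 : g z - g a₀ = (g z - g b₀) + (g b₀ - g a₀) := by abel
        rw [h3]
        refine Submodule.add_mem_sup ?_ ?_
        · rw [hL]
          exact Submodule.subset_span (Or.inl ⟨z, hz, b₀, hb₀, rfl⟩)
        · rw [hM]
          exact Submodule.mem_span_singleton_self _
      · refine Submodule.mem_sup_left ?_
        rw [hL]
        exact Submodule.subset_span (Or.inr ⟨z, hz, a₀, ha₀, rfl⟩)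
    rw [Submodule.span_le]
    rintro z ⟨_, ⟨a, ha, rfl⟩, _, ⟨a', ha', rfl⟩, rfl⟩
    have h3 : g a - g a' = (g a - g a₀) - (g a' - g a₀) := by abel
    change g a - g a' ∈ L ⊔ M
    rw [h3]
    exact Submodule.sub_mem _ (h2 a (mem_coe.1 ha)) (h2 a' (mem_coe.1 ha'))
  have f3 : Module.Finite ℤ (L ⊔ M : Submodule ℤ W) := by
    exact Module.Finite.iff_fg.2
      (Submodule.FG.sup (Module.Finite.iff_fg.1 f1) (Module.Finite.iff_fg.1 f2))
  have h4 : Module.finrank ℤ (L ⊔ M : Submodule ℤ W) ≤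
      Module.finrank ℤ L + Module.finrank ℤ M := by
    have h5 := Submodule.rank_add_le_rank_add_rank L M
    rw [← Module.finrank_eq_rank, ← Module.finrank_eq_rank, ← Module.finrank_eq_rank] at h5
    exact_mod_cast h5
  have h6 : Module.finrank ℤ M ≤ 1 := by
    rw [hM]
    have := finrank_span_le_card (R := ℤ) ({g b₀ - g a₀} : Set W)
    simpa using this
  calc _ ≤ Module.finrank ℤ (L ⊔ M : Submodule ℤ W) := Submodule.finrank_mono h1
    _ ≤ _ := by
      rw [← hL]
      omega

end hom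

section single

variable {Γ : Type u} [AddCommGroup Γ] [DecidableEq Γ]

/-- **One set.** -/
theorem single {q : ℕ} (hq : 2 ≤ q) (hΓ : ∀ a b : Γ, q • a = q • b → a = b) {A : Finset Γ}
    (hA : A.Nonempty) {K : ℝ} (hK : ((A + A.image fun a => q • a).card : ℝ) ≤ K * A.card)
    {ε : ℝ} (hε : 0 < ε) (hε1 : ε ≤ 1) :
    ∃ A' A'' : Finset Γ, A' ⊆ A'' ∧ A'' ⊆ A ∧ A'.Nonempty ∧
      (A.card : ℝ) ≤ K ^ (cst q ε) * A'.card ∧
      (∀ (W : Type w) [AddCommGroup W] [IsAddTorsionFree W] (g : Γ → W),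
        IsAddFreimanHom (q + 1) (A'' : Set Γ) Set.univ g →
        (Module.finrank ℤ (Submodule.span ℤ (g '' (A' : Set Γ) - g '' (A' : Set Γ))) : ℝ) *
            Real.log q ≤ (1 + ε) * Real.log K ∧
        (Module.finrank ℤ (Submodule.span ℤ (g '' (A'' : Set Γ) - g '' (A'' : Set Γ))) : ℝ) *
            Real.log q ≤ (1 + ε) * Real.log K + Real.log q) ∧
      ∃ F : Finset Γ, (F.card : ℝ) ≤ K ^ (cst q ε + 2) ∧ A ⊆ F + (A' - A') := by
  have hN : (0 : ℝ) < A.card := by exact_mod_cast card_pos.2 hA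
  have hK1 : 1 ≤ K := (Ph_self (l := 0) (e := 0) hΓ le_rfl hA hK).1
  have hK0 : 0 < K := by linarith
  have hlq : 0 ≤ Real.log q := Real.log_nonneg (by exact_mod_cast (by omega : 1 ≤ q))
  obtain ⟨B, hBA, A', hAA, hB, hA', -, hs, hr⟩ := pair.{u, w} hq hΓ hA hK hε hε1
  refine ⟨A', B ∪ A', subset_union_right, union_subset hBA hAA, hA', hs, ?_, ?_⟩
  · intro W _ _ g hg
    have h1 := hr W g g (cm_of_freiman (by omega) hg
      (fun b hb => mem_coe.2 (mem_union_left _ hb)) (fun b hb => mem_coe.2 (mem_union_right _ hb)))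
    constructor
    · refine le_trans (mul_le_mul_of_nonneg_right ?_ hlq) h1
      exact_mod_cast finrank_left B A' g
    · have h2 : (Module.finrank ℤ (Submodule.span ℤ (g '' ((B ∪ A' : Finset Γ) : Set Γ) -
          g '' ((B ∪ A' : Finset Γ) : Set Γ))) : ℝ) ≤
          (Module.finrank ℤ (Submodule.span ℤ (dif B A' g g)) : ℝ) + 1 := by
        exact_mod_cast finrank_union hB hA' g
      have h3 := mul_le_mul_of_nonneg_right h2 hlq
      linarith
  · have hAA' : ((A + A).card : ℝ) ≤ K ^ 2 * A.card := by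
      have h1 := ruzsa_triangle_inequality_add_add_add A (A.image fun a => q • a) A
      rw [card_dil hΓ, add_comm (A.image fun a => q • a) A] at h1
      have h2 : ((A + A).card : ℝ) * A.card ≤ ((A + A.image fun a => q • a).card : ℝ) *
          (A + A.image fun a => q • a).card := by exact_mod_cast h1
      have h3 : ((A + A).card : ℝ) * A.card ≤ (K ^ 2 * A.card) * A.card := by
        refine h2.trans ?_
        calc ((A + A.image fun a => q • a).card : ℝ) * (A + A.image fun a => q • a).card ≤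
            (K * A.card) * (K * A.card) := mul_le_mul hK hK (by positivity) (by positivity)
          _ = _ := by ring
      exact le_of_mul_le_mul_right h3 hN
    have h1 : ((A + A').card : ℝ) ≤ K ^ (cst q ε + 2) * A'.card := by
      have h2 : ((A + A').card : ℝ) ≤ (A + A).card := by
        exact_mod_cast card_le_card (add_subset_add_left hAA)
      rw [Real.rpow_add hK0]
      have h3 : K ^ (2 : ℝ) = K ^ 2 := Real.rpow_two K
      rw [h3]
      calc ((A + A').card : ℝ) ≤ K ^ 2 * A.card := h2.trans hAA'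
        _ ≤ K ^ 2 * (K ^ (cst q ε) * A'.card) := mul_le_mul_of_nonneg_left hs (by positivity)
        _ = _ := by ring
    obtain ⟨F, -, hF, hcov⟩ := ruzsa_covering_add hA' h1
    exact ⟨F, hF, hcov⟩

end single

section petridis

variable {Γ : Type u} [AddCommGroup Γ] [DecidableEq Γ]

/-- a subset whose triple dilate grows little -/
lemma exists_petridis {A : Finset Γ} (hA : A.Nonempty) {K : ℝ}
    (hK : ((A + A).card : ℝ) ≤ K * A.card) :
    ∃ X ⊆ A, X.Nonempty ∧ (A.card : ℝ) ≤ K * X.card ∧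
      ((X + X.image fun a => 3 • a).card : ℝ) ≤ K ^ 3 * X.card := by
  have hN : (0 : ℝ) < A.card := by exact_mod_cast card_pos.2 hA
  obtain ⟨X, hX, hmin⟩ := (A.powerset.filter fun X => X.Nonempty).exists_min_image
    (fun X => ((X + A).card : ℝ) / X.card)
    ⟨A, mem_filter.2 ⟨mem_powerset_self _, hA⟩⟩
  rw [mem_filter, mem_powerset] at hX
  obtain ⟨hXA, hX0⟩ := hX
  have hM : (0 : ℝ) < X.card := by exact_mod_cast card_pos.2 hX0
  have h1 : ((X + A).card : ℝ) ≤ K * X.card := by
    have h2 := hmin A (mem_filter.2 ⟨mem_powerset_self _, hA⟩)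
    have h3 : ((A + A).card : ℝ) / A.card ≤ K := by
      rw [div_le_iff₀ hN]
      exact hK
    have h4 := h2.trans h3
    rwa [div_le_iff₀ hM] at h4
  have h2 : ∀ Y ⊆ X, (X + A).card * Y.card ≤ (Y + A).card * X.card := by
    intro Y hY
    rcases Y.eq_empty_or_nonempty with rfl | hY0
    · simp
    · have hY1 : (0 : ℝ) < Y.card := by exact_mod_cast card_pos.2 hY0
      have h3 := hmin Y (mem_filter.2 ⟨mem_powerset.2 (hY.trans hXA), hY0⟩)
      rw [div_le_div_iff₀ hM hY1] at h3
      exact_mod_cast h3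
  have hK0 : 0 ≤ K := by
    by_contra h3
    push Not at h3
    have h4 : K * X.card < 0 := mul_neg_of_neg_of_pos h3 hM
    have h5 : (0 : ℝ) ≤ (X + A).card := by positivity
    linarith
  have step : ∀ C : Finset Γ, ((C + X + A).card : ℝ) ≤ K * (C + X).card := by
    intro C
    have h3 := pluennecke_petridis_inequality_add C h2
    have h4 : ((C + X + A).card : ℝ) * X.card ≤ ((X + A).card : ℝ) * (C + X).card := by
      exact_mod_cast h3
    have h5 : ((C + X + A).card : ℝ) * X.card ≤ (K * (C + X).card) * X.card := by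
      refine h4.trans ?_
      have h6 : ((X + A).card : ℝ) * (C + X).card ≤ (K * X.card) * (C + X).card :=
        mul_le_mul_of_nonneg_right h1 (by positivity)
      linarith
    exact le_of_mul_le_mul_right h5 hM
  refine ⟨X, hXA, hX0, ?_, ?_⟩
  · have h3 : (A.card : ℝ) ≤ (X + A).card := by
      exact_mod_cast card_le_card_add_left hX0
    linarith
  · have h3 : ((A + A + X + A).card : ℝ) ≤ K * (A + A + X).card := step (A + A)
    have h4 : ((A + X + A).card : ℝ) ≤ K * (A + X).card := step A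
    have h5 : ((X + A).card : ℝ) ≤ K * X.card := h1
    have e1 : A + A + X = A + X + A := by rw [add_right_comm]
    have e2 : A + X = X + A := add_comm _ _
    rw [e1] at h3
    rw [e2] at h4
    have h6 : ((X + X.image fun a => 3 • a).card : ℝ) ≤ (A + X + A + A).card := by
      refine Nat.cast_le.2 (card_le_card fun z hz => ?_)
      obtain ⟨x, hx, w, hw, rfl⟩ := mem_add.1 hz
      obtain ⟨y, hy, rfl⟩ := mem_image.1 hw
      have h7 : x + 3 • y = y + x + y + y := by
        rw [show (3 : ℕ) = 1 + 1 + 1 by norm_num, add_nsmul, add_nsmul, one_nsmul]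
        abel
      rw [h7]
      exact add_mem_add (add_mem_add (add_mem_add (hXA hy) hx) (hXA hy)) (hXA hy)
    rw [e2] at h3 h6
    calc ((X + X.image fun a => 3 • a).card : ℝ) ≤ (X + A + A + A).card := h6
      _ ≤ K * (X + A + A).card := h3
      _ ≤ K * (K * (X + A).card) := mul_le_mul_of_nonneg_left h4 hK0
      _ ≤ K * (K * (K * X.card)) :=
        mul_le_mul_of_nonneg_left (mul_le_mul_of_nonneg_left h5 hK0) hK0
      _ = _ := by ring

/-- **Sets of small doubling.** -/
theorem doubling (hΓ : ∀ a b : Γ, 3 • a = 3 • b → a = b) {A : Finset Γ}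
    (hA : A.Nonempty) {K : ℝ} (hK : ((A + A).card : ℝ) ≤ K * A.card)
    {ε : ℝ} (hε : 0 < ε) (hε1 : ε ≤ 1) :
    ∃ A' A'' : Finset Γ, A' ⊆ A'' ∧ A'' ⊆ A ∧ A'.Nonempty ∧
      (A.card : ℝ) ≤ K ^ (2 * 10 ^ 8 / ε ^ 2) * A'.card ∧
      (∀ (W : Type w) [AddCommGroup W] [IsAddTorsionFree W] (g : Γ → W),
        IsAddFreimanHom 4 (A'' : Set Γ) Set.univ g →
        (Module.finrank ℤ (Submodule.span ℤ (g '' (A' : Set Γ) - g '' (A' : Set Γ))) : ℝ) ≤
            3 / Real.log 3 * (1 + ε) * Real.log K ∧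
        (Module.finrank ℤ (Submodule.span ℤ (g '' (A'' : Set Γ) - g '' (A'' : Set Γ))) : ℝ) ≤
            3 / Real.log 3 * (1 + ε) * Real.log K + 1) ∧
      ∃ F : Finset Γ, (F.card : ℝ) ≤ K ^ (2 * 10 ^ 8 / ε ^ 2) ∧ A ⊆ F + (A' - A') := by
  have hN : (0 : ℝ) < A.card := by exact_mod_cast card_pos.2 hA
  obtain ⟨X, hXA, hX0, hX1, hX3⟩ := exists_petridis hA hK
  have hM : (0 : ℝ) < X.card := by exact_mod_cast card_pos.2 hX0
  have hK1 : 1 ≤ K := by
    have h1 : (A.card : ℝ) ≤ (A + A).card := by exact_mod_cast card_le_card_add_left hA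
    have h2 : 1 * (A.card : ℝ) ≤ K * A.card := by linarith
    exact le_of_mul_le_mul_right h2 hN
  have hK0 : 0 < K := by linarith
  obtain ⟨A', A'', h1, h2, h3, h4, h5, -⟩ := single.{u, w} (by norm_num : 2 ≤ 3) hΓ hX0 hX3 hε hε1
  have hlog3 : 0 < Real.log 3 := Real.log_pos (by norm_num)
  have hlogK : Real.log (K ^ 3) = 3 * Real.log K := by
    rw [Real.log_pow]
    norm_num
  have hc : cst 3 ε = 4 * 10 ^ 7 / ε ^ 2 := by
    have h6 : Nat.log 2 3 = 1 := by
      rw [Nat.log_eq_iff (Or.inl (by norm_num))]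
      norm_num
    unfold cst
    rw [h6]
    norm_num
  have hε2 : ε ^ 2 ≤ 1 := pow_le_one₀ hε.le hε1
  have hb1 : 1 + 12 * 10 ^ 7 / ε ^ 2 + 1 ≤ 2 * 10 ^ 8 / ε ^ 2 := by
    rw [show (1 : ℝ) + 12 * 10 ^ 7 / ε ^ 2 + 1 = (2 * ε ^ 2 + 12 * 10 ^ 7) / ε ^ 2 by
      field_simp; ring]
    refine div_le_div_of_nonneg_right ?_ (by positivity)
    linarith
  have hsz : (A.card : ℝ) ≤ K ^ (1 + 12 * 10 ^ 7 / ε ^ 2) * A'.card := by
    rw [hc, ← Real.rpow_natCast, ← Real.rpow_mul hK0.le] at h4
    rw [Real.rpow_add hK0, Real.rpow_one]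
    have h6 : ((3 : ℕ) : ℝ) * (4 * 10 ^ 7 / ε ^ 2) = 12 * 10 ^ 7 / ε ^ 2 := by
      push_cast
      ring
    rw [h6] at h4
    calc (A.card : ℝ) ≤ K * X.card := hX1
      _ ≤ K * (K ^ (12 * 10 ^ 7 / ε ^ 2) * A'.card) := mul_le_mul_of_nonneg_left h4 hK0.le
      _ = _ := by ring
  refine ⟨A', A'', h1, h2.trans hXA, h3, ?_, ?_, ?_⟩
  · refine hsz.trans (mul_le_mul_of_nonneg_right ?_ (by positivity))
    exact Real.rpow_le_rpow_of_exponent_le hK1 (by linarith)
  · intro W _ _ g hg
    obtain ⟨h6, h7⟩ := h5 W g hg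
    rw [hlogK] at h6 h7
    push_cast at h6 h7
    constructor
    · rw [show 3 / Real.log 3 * (1 + ε) * Real.log K =
        ((1 + ε) * (3 * Real.log K)) / Real.log 3 by ring, le_div_iff₀ hlog3]
      exact h6
    · rw [show 3 / Real.log 3 * (1 + ε) * Real.log K + 1 =
        ((1 + ε) * (3 * Real.log K) + Real.log 3) / Real.log 3 by field_simp, le_div_iff₀ hlog3]
      exact h7
  · have h8 : ((A + A').card : ℝ) ≤ K ^ (2 * 10 ^ 8 / ε ^ 2) * A'.card := by
      have h9 : ((A + A').card : ℝ) ≤ (A + A).card := by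
        exact_mod_cast card_le_card (add_subset_add_left (h1.trans (h2.trans hXA)))
      calc ((A + A').card : ℝ) ≤ K * A.card := h9.trans hK
        _ ≤ K * (K ^ (1 + 12 * 10 ^ 7 / ε ^ 2) * A'.card) :=
          mul_le_mul_of_nonneg_left hsz hK0.le
        _ = K ^ (1 + 12 * 10 ^ 7 / ε ^ 2 + 1) * A'.card := by
          rw [Real.rpow_add hK0 _ 1, Real.rpow_one]
          ring
        _ ≤ _ := mul_le_mul_of_nonneg_right
          (Real.rpow_le_rpow_of_exponent_le hK1 hb1) (by positivity)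
    obtain ⟨F, -, hF, hcov⟩ := ruzsa_covering_add h3 h8
    exact ⟨F, hF, hcov⟩

end petridis

section box

/-- the box -/
noncomputable def box (d n : ℕ) : Finset (Fin d → ℤ) := Fintype.piFinset fun _ => Finset.Ico (0 : ℤ) n

lemma card_box (d n : ℕ) : (box d n).card = n ^ d := by
  unfold box
  rw [Fintype.card_piFinset]
  simp

lemma card_box_dil (d n q : ℕ) :
    (box d n + (box d n).image fun a => q • a).card ≤ ((q + 1) * n) ^ d := by
  rw [← card_box d ((q + 1) * n)]
  refine card_le_card fun z hz => ?_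
  obtain ⟨x, hx, w, hw, rfl⟩ := mem_add.1 hz
  obtain ⟨y, hy, rfl⟩ := mem_image.1 hw
  unfold box at hx hy ⊢
  rw [Fintype.mem_piFinset] at hx hy ⊢
  intro i
  have h1 := mem_Ico.1 (hx i)
  have h2 := mem_Ico.1 (hy i)
  rw [mem_Ico, Pi.add_apply, Pi.smul_apply, nsmul_eq_mul]
  have h3 : (0 : ℤ) ≤ q * y i := mul_nonneg (by positivity) h2.1
  have h4 : (q : ℤ) * y i ≤ q * (n - 1) := mul_le_mul_of_nonneg_left (by linarith [h2.2]) (by positivity)
  push_cast
  constructor
  · linarith
  · nlinarith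

/-- large subsets of boxes are not degenerate -/
lemma finrank_box {d n : ℕ} {A' : Finset (Fin d → ℤ)} (hA' : A' ⊆ box d n)
    (hc : n ^ (d - 1) < A'.card) :
    d ≤ Module.finrank ℤ (Submodule.span ℤ ((A' : Set (Fin d → ℤ)) - (A' : Set (Fin d → ℤ)))) := by
  classical
  -- a multiple of each unit vector
  have key : ∀ i : Fin d, ∃ m : ℤ, m ≠ 0 ∧ (Pi.single i m : Fin d → ℤ) ∈
      Submodule.span ℤ ((A' : Set (Fin d → ℤ)) - (A' : Set (Fin d → ℤ))) := by
    intro i
    have h1 : ∃ x ∈ A', ∃ y ∈ A', x ≠ y ∧ (fun j : {j : Fin d // j ≠ i} => x j) =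
        (fun j : {j : Fin d // j ≠ i} => y j) := by
      refine exists_ne_map_eq_of_card_lt_of_maps_to
        (t := Fintype.piFinset fun _ : {j : Fin d // j ≠ i} => Finset.Ico (0 : ℤ) n) ?_ ?_
      · rw [Fintype.card_piFinset]
        simp only [Int.card_Ico, prod_const, card_univ]
        have h2 : Fintype.card {j : Fin d // j ≠ i} = d - 1 := by
          rw [Fintype.card_subtype_compl]
          simp
        rw [h2]
        simpa using hc
      · intro x hx
        have h2 := hA' hx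
        unfold box at h2
        rw [Fintype.mem_piFinset] at h2
        exact Fintype.mem_piFinset.2 fun j => h2 j
    obtain ⟨x, hx, y, hy, hne, hxy⟩ := h1
    refine ⟨x i - y i, ?_, ?_⟩
    · intro h2
      apply hne
      funext j
      by_cases hj : j = i
      · rw [hj]
        linarith
      · exact congrFun hxy ⟨j, hj⟩
    · have h2 : (Pi.single i (x i - y i) : Fin d → ℤ) = x - y := by
        funext j
        by_cases hj : j = i
        · rw [hj]
          simp
        · rw [Pi.single_eq_of_ne hj, Pi.sub_apply, congrFun hxy ⟨j, hj⟩, sub_self]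
      rw [h2]
      exact Submodule.subset_span ⟨x, hx, y, hy, rfl⟩
  choose m hm hmem using key
  have hli : LinearIndependent ℤ (fun i : Fin d => (⟨Pi.single i (m i), hmem i⟩ :
      Submodule.span ℤ ((A' : Set (Fin d → ℤ)) - (A' : Set (Fin d → ℤ))))) := by
    refine LinearIndependent.of_comp (Submodule.subtype _) ?_
    rw [Fintype.linearIndependent_iff]
    intro c hc i
    have h1 := congrFun hc i
    simp only [Function.comp_apply, Submodule.subtype_apply, Finset.sum_apply, Pi.smul_apply,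
      smul_eq_mul, Pi.zero_apply] at h1
    rw [sum_eq_single i (fun j _ hj => by rw [Pi.single_eq_of_ne hj.symm, mul_zero])
      (fun h2 => absurd (mem_univ i) h2), Pi.single_eq_same] at h1
    exact (mul_eq_zero.1 h1).resolve_right (hm i)
  have h1 := hli.fintype_card_le_finrank
  simpa using h1

/-- **Boxes.** -/
theorem sharp (q d : ℕ) (C : ℝ) :
    ∃ A : Finset (Fin d → ℤ), A.Nonempty ∧
      ((A + A.image fun a => q • a).card : ℝ) ≤ ((q + 1 : ℝ) ^ d) * A.card ∧
      ∀ A' ⊆ A, (A.card : ℝ) ≤ ((q + 1 : ℝ) ^ d) ^ C * A'.card →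
        d ≤ Module.finrank ℤ
          (Submodule.span ℤ ((A' : Set (Fin d → ℤ)) - (A' : Set (Fin d → ℤ)))) := by
  obtain ⟨n, hn⟩ := exists_nat_gt (((q + 1 : ℝ) ^ d) ^ C)
  have hpos : 0 < ((q + 1 : ℝ) ^ d) ^ C := by positivity
  have hn0 : 0 < n := by
    have : (0 : ℝ) < n := hpos.trans hn
    exact_mod_cast this
  have hnR : (0 : ℝ) < n := by exact_mod_cast hn0
  refine ⟨box d n, ?_, ?_, ?_⟩
  · rw [← card_pos, card_box]
    positivity
  · have h1 := card_box_dil d n q
    rw [card_box]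
    have h2 : ((box d n + (box d n).image fun a => q • a).card : ℝ) ≤ (((q + 1) * n) ^ d : ℕ) := by
      exact_mod_cast h1
    refine h2.trans (le_of_eq ?_)
    push_cast
    rw [mul_pow]
  · intro A' hA' hs
    rcases Nat.eq_zero_or_pos d with hd | hd
    · omega
    refine finrank_box hA' ?_
    rw [card_box] at hs
    have h1 : ((n ^ (d - 1) : ℕ) : ℝ) * n = ((n ^ d : ℕ) : ℝ) := by
      push_cast
      rw [← pow_succ]
      congr 1
      omega
    have h2 : ((n ^ (d - 1) : ℕ) : ℝ) < A'.card := by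
      have hA0 : (0 : ℝ) < A'.card := by
        by_contra h3
        push Not at h3
        have h4 : (A'.card : ℝ) = 0 := le_antisymm h3 (by positivity)
        rw [h4, mul_zero] at hs
        have : (0 : ℝ) < ((n ^ d : ℕ) : ℝ) := by positivity
        linarith
      have h3 : ((n ^ (d - 1) : ℕ) : ℝ) * n < A'.card * n := by
        rw [h1]
        refine lt_of_le_of_lt hs ?_
        rw [mul_comm]
        exact mul_lt_mul_of_pos_left hn hA0
      exact lt_of_mul_lt_mul_right h3 hnR.le
    exact_mod_cast h2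

end box

end Pool.Agent.Run7.h127.SD
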