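import Pool.Agent.Run7.h127.SD.Ext

/-!
# Arbitrary abelian groups

Level sets of the sizes of the fibres of a homomorphism.
-/

set_option autoImplicit false
set_option linter.unusedSectionVars false

namespace Pool.Agent.Run7.h127.SD

open Finset
open scoped Pointwise

universe u v w

section level

variable {G : Type u} [AddCommGroup G] [DecidableEq G] {W : Type w} [AddCommGroup W] [DecidableEq W]

/-- the values with at least `t` preimages in `S` -/
def lev (π : G →+ W) (S : Finset G) (t : ℕ) : Finset W :=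
  (S.image π).filter fun z => t ≤ (S.filter fun s => π s = z).card

lemma lev_sub (π : G →+ W) (S : Finset G) (t : ℕ) : lev π S t ⊆ S.image π := filter_subset _ _

lemma mem_lev {π : G →+ W} {S : Finset G} {t : ℕ} {z : W} :
    z ∈ lev π S t ↔ z ∈ S.image π ∧ t ≤ (S.filter fun s => π s = z).card := mem_filter

/-- a sum over levels -/
lemma sum_lev (π : G →+ W) (S : Finset G) :
    ∑ t ∈ Icc 1 S.card, (lev π S t).card = S.card := by
  have h1 : ∀ t ∈ Icc 1 S.card, (lev π S t).card =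
      ∑ z ∈ S.image π, if t ≤ (S.filter fun s => π s = z).card then 1 else 0 := by
    intro t _
    unfold lev
    rw [card_filter]
  rw [sum_congr rfl h1, sum_comm]
  have h2 : ∀ z ∈ S.image π, ∑ t ∈ Icc 1 S.card,
      (if t ≤ (S.filter fun s => π s = z).card then 1 else 0) =
      (S.filter fun s => π s = z).card := by
    intro z _
    rw [← card_filter]
    have h3 : (Icc 1 S.card).filter (fun t => t ≤ (S.filter fun s => π s = z).card) =
        Icc 1 (S.filter fun s => π s = z).card := by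
      ext t
      rw [mem_filter, mem_Icc, mem_Icc]
      have h4 : (S.filter fun s => π s = z).card ≤ S.card := card_le_card (filter_subset _ _)
      omega
    rw [h3, Nat.card_Icc]
    omega
  rw [sum_congr rfl h2]
  exact (card_eq_sum_card_image π S).symm

/-- the sums of the level sets with all values -/
lemma sum_lev_add (π : G →+ W) (S : Finset G) :
    ∑ t ∈ Icc 1 S.card, (lev π S t + S.image π).card ≤ (S + S).card := by
  have h1 : ∀ t ∈ Icc 1 S.card, (lev π S t + S.image π).card ≤ (lev π (S + S) t).card := by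
    intro t _
    refine card_le_card fun z hz => ?_
    obtain ⟨u, hu, v, hv, rfl⟩ := mem_add.1 hz
    obtain ⟨hu1, hu2⟩ := mem_lev.1 hu
    obtain ⟨a, ha, rfl⟩ := mem_image.1 hu1
    obtain ⟨b, hb, rfl⟩ := mem_image.1 hv
    rw [mem_lev]
    refine ⟨mem_image.2 ⟨a + b, add_mem_add ha hb, map_add _ _ _⟩, hu2.trans ?_⟩
    refine card_le_card_of_injOn (fun s => s + b) ?_ ?_
    · intro s hs
      rw [mem_coe, mem_filter] at hs
      rw [mem_coe, mem_filter]
      exact ⟨add_mem_add hs.1 hb, by rw [map_add, hs.2]⟩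
    · intro s _ s' _ hss
      exact add_right_cancel hss
  refine (sum_le_sum h1).trans ?_
  rcases S.eq_empty_or_nonempty with rfl | hS
  · simp
  have h2 : S.card ≤ (S + S).card := card_le_card_add_left hS
  refine (sum_le_sum_of_subset (Icc_subset_Icc_right h2)).trans ?_
  rw [sum_lev]

/-- **A level set with small doubling.** -/
theorem exists_level (π : G →+ W) {S : Finset G} (hS : S.Nonempty) {K : ℝ}
    (hK : ((S + S).card : ℝ) ≤ K * S.card) {η : ℝ} (hη : 0 < η) :
    ∃ t : ℕ, (lev π S t).Nonempty ∧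
      ((lev π S t + lev π S t).card : ℝ) ≤ (1 + η) * K * (lev π S t).card ∧
      η * S.card ≤ (1 + η) ^ 2 * K * (t * (lev π S t).card) := by
  have hN : (0 : ℝ) < S.card := by exact_mod_cast card_pos.2 hS
  have hK1 : 1 ≤ K := by
    have h1 : (S.card : ℝ) ≤ (S + S).card := by exact_mod_cast card_le_card_add_left hS
    have h2 : 1 * (S.card : ℝ) ≤ K * S.card := by linarith
    exact le_of_mul_le_mul_right h2 hN
  have hK2 : 0 < (1 + η) * K := by positivity
  obtain ⟨I, hI⟩ : ∃ I, I = (Icc 1 S.card).filter (fun t => (lev π S t).Nonempty ∧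
    ((lev π S t + S.image π).card : ℝ) ≤ (1 + η) * K * (lev π S t).card) := ⟨_, rfl⟩
  -- the good levels carry a part of the mass
  have hbad : (1 + η) * ∑ t ∈ (Icc 1 S.card).filter (fun t => ¬ ((lev π S t).Nonempty ∧
      ((lev π S t + S.image π).card : ℝ) ≤ (1 + η) * K * (lev π S t).card)),
      ((lev π S t).card : ℝ) ≤ S.card := by
    have h1 : ∀ t ∈ (Icc 1 S.card).filter (fun t => ¬ ((lev π S t).Nonempty ∧
        ((lev π S t + S.image π).card : ℝ) ≤ (1 + η) * K * (lev π S t).card)),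
        ((lev π S t).card : ℝ) ≤ ((lev π S t + S.image π).card : ℝ) / ((1 + η) * K) := by
      intro t ht
      rw [mem_filter] at ht
      rcases (lev π S t).eq_empty_or_nonempty with h0 | h0
      · rw [h0, card_empty, Nat.cast_zero]
        positivity
      · have h2 := ht.2
        rw [not_and] at h2
        have h3 := h2 h0
        rw [not_le] at h3
        rw [le_div_iff₀ hK2]
        linarith
    have h2 : ∑ t ∈ (Icc 1 S.card).filter (fun t => ¬ ((lev π S t).Nonempty ∧
        ((lev π S t + S.image π).card : ℝ) ≤ (1 + η) * K * (lev π S t).card)),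
        ((lev π S t + S.image π).card : ℝ) ≤
        ∑ t ∈ Icc 1 S.card, ((lev π S t + S.image π).card : ℝ) :=
      sum_le_sum_of_subset_of_nonneg (filter_subset _ _) fun _ _ _ => by positivity
    have h3 : ∑ t ∈ Icc 1 S.card, ((lev π S t + S.image π).card : ℝ) ≤ (S + S).card := by
      exact_mod_cast sum_lev_add π S
    have h4 := sum_le_sum h1
    rw [← sum_div, le_div_iff₀ hK2] at h4
    have h5 := h4.trans ((h2.trans h3).trans hK)
    have h6 : ((1 + η) * ∑ t ∈ (Icc 1 S.card).filter (fun t => ¬ ((lev π S t).Nonempty ∧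
      ((lev π S t + S.image π).card : ℝ) ≤ (1 + η) * K * (lev π S t).card)),
      ((lev π S t).card : ℝ)) * K ≤ S.card * K := by linarith
    exact le_of_mul_le_mul_right h6 (by linarith)
  have htot : ∑ t ∈ Icc 1 S.card, ((lev π S t).card : ℝ) = S.card := by
    exact_mod_cast sum_lev π S
  rw [← sum_filter_add_sum_filter_not (Icc 1 S.card) (fun t => (lev π S t).Nonempty ∧
    ((lev π S t + S.image π).card : ℝ) ≤ (1 + η) * K * (lev π S t).card), ← hI] at htot
  have hgood : η * S.card ≤ (1 + η) * ∑ t ∈ I, ((lev π S t).card : ℝ) := by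
    have h1 : (1 + η) * S.card = (1 + η) * ∑ t ∈ I, ((lev π S t).card : ℝ) +
      (1 + η) * ∑ t ∈ (Icc 1 S.card).filter (fun t => ¬ ((lev π S t).Nonempty ∧
      ((lev π S t + S.image π).card : ℝ) ≤ (1 + η) * K * (lev π S t).card)),
      ((lev π S t).card : ℝ) := by
      rw [← mul_add, htot]
    linarith
  have hIne : I.Nonempty := by
    rw [nonempty_iff_ne_empty]
    intro h0
    rw [h0, sum_empty, mul_zero] at hgood
    have : 0 < η * S.card := by positivity
    linarith
  obtain ⟨t, htI, hmax⟩ := I.exists_max_image id hIne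
  have ht2 : (lev π S t).Nonempty ∧
      ((lev π S t + S.image π).card : ℝ) ≤ (1 + η) * K * (lev π S t).card := by
    rw [hI, mem_filter] at htI
    exact htI.2
  obtain ⟨hne, ht3⟩ := ht2
  have himg : ((S.image π).card : ℝ) ≤ (1 + η) * K * (lev π S t).card := by
    have h1 : ((S.image π).card : ℝ) ≤ (lev π S t + S.image π).card := by
      exact_mod_cast card_le_card_add_left hne
    linarith
  refine ⟨t, hne, ?_, ?_⟩
  · refine le_trans ?_ ht3
    exact_mod_cast card_le_card (add_subset_add_left (lev_sub π S t))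
  · have h1 : ∑ s ∈ I, ((lev π S s).card : ℝ) ≤ ∑ s ∈ I, ((S.image π).card : ℝ) :=
      sum_le_sum fun s _ => by exact_mod_cast card_le_card (lev_sub π S s)
    rw [sum_const, nsmul_eq_mul] at h1
    have h2 : I.card ≤ t := by
      have h3 : I ⊆ Icc 1 t := by
        intro s hs
        have h4 := hmax s hs
        simp only [id] at h4
        rw [hI, mem_filter, mem_Icc] at hs
        exact mem_Icc.2 ⟨hs.1.1, h4⟩
      have h4 := card_le_card h3
      rw [Nat.card_Icc] at h4
      omega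
    have h3 : (I.card : ℝ) * (S.image π).card ≤ t * ((1 + η) * K * (lev π S t).card) :=
      mul_le_mul (by exact_mod_cast h2) himg (by positivity) (by positivity)
    calc η * S.card ≤ (1 + η) * ∑ t ∈ I, ((lev π S t).card : ℝ) := hgood
      _ ≤ (1 + η) * (t * ((1 + η) * K * (lev π S t).card)) :=
        mul_le_mul_of_nonneg_left (h1.trans h3) (by linarith)
      _ = _ := by ring

/-- the preimage of a set of values at a level -/
lemma card_preimage_ge (π : G →+ W) (S : Finset G) {t : ℕ} {L : Finset W} (hL : L ⊆ lev π S t) :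
    t * L.card ≤ (S.filter fun s => π s ∈ L).card := by
  rw [card_eq_sum_card_fiberwise (f := π) (s := S.filter fun s => π s ∈ L) (t := L)
    (fun s hs => by
      rw [mem_coe, mem_filter] at hs
      exact mem_coe.2 hs.2), mul_comm, ← smul_eq_mul, ← sum_const]
  refine sum_le_sum fun z hz => ?_
  refine (mem_lev.1 (hL hz)).2.trans (card_le_card fun s hs => ?_)
  rw [mem_filter] at hs
  rw [mem_filter, mem_filter]
  exact ⟨⟨hs.1, by rw [hs.2]; exact hz⟩, hs.2⟩

end level

section gen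

variable {Γ : Type u} [AddCommGroup Γ]

/-- **Weak polynomial Freiman–Ruzsa with sharp dimension, arbitrary abelian groups.** -/
theorem weak_pfr_gen [DecidableEq Γ] {A : Finset Γ}
    (hA : A.Nonempty) {K : ℝ} (hK : ((A + A).card : ℝ) ≤ K * A.card)
    {ε : ℝ} (hε : 0 < ε) (hε1 : ε ≤ 1) :
    ∃ A' : Finset Γ, A' ⊆ A ∧ A'.Nonempty ∧
      (A.card : ℝ) ≤ (2 * K) ^ (6 * 10 ^ 9 / ε ^ 4) * A'.card ∧
      (∀ (W : Type w) [AddCommGroup W] [IsAddTorsionFree W] (g : Γ → W),
        IsAddFreimanHom 2 (A : Set Γ) Set.univ g →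
          (rk g (A' : Set Γ) : ℝ) * Real.log 2 ≤ (1 + ε) * Real.log ((1 + ε) * K)) ∧
      ∃ F : Finset Γ, F ⊆ A ∧ (F.card : ℝ) ≤ (2 * K) ^ (6 * 10 ^ 9 / ε ^ 4) ∧
        A ⊆ F + (A' - A') := by
  classical
  have hN : (0 : ℝ) < A.card := by exact_mod_cast card_pos.2 hA
  have hK1 : 1 ≤ K := by
    have h1 : (A.card : ℝ) ≤ (A + A).card := by exact_mod_cast card_le_card_add_left hA
    have h2 : 1 * (A.card : ℝ) ≤ K * A.card := by linarith
    exact le_of_mul_le_mul_right h2 hN
  have hK0 : 0 < K := by linarith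
  obtain ⟨W₀, _, _, g₀, hg₀, huniv⟩ := exists_univ.{u, w} A
  obtain ⟨e, he⟩ : ∃ e : Γ → Γ × W₀, e = fun a => (a, g₀ a) := ⟨_, rfl⟩
  have hfst : ∀ a, (e a).1 = a := fun a => by rw [he]
  have hsnd : ∀ a, (e a).2 = g₀ a := fun a => by rw [he]
  have hinj : Function.Injective e := fun a b hab => by
    rw [← hfst a, ← hfst b, hab]
  obtain ⟨S, hS⟩ : ∃ S, S = A.image e := ⟨_, rfl⟩
  have hSc : S.card = A.card := by rw [hS, card_image_of_injective _ hinj]
  have hSne : S.Nonempty := by rw [hS]; exact hA.image e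
  have hSS : (S + S).card ≤ (A + A).card := by
    refine card_le_card_of_injOn Prod.fst ?_ ?_
    · intro z hz
      obtain ⟨x, hx, y, hy, rfl⟩ := mem_add.1 (mem_coe.1 hz)
      rw [hS] at hx hy
      obtain ⟨a, ha, rfl⟩ := mem_image.1 hx
      obtain ⟨b, hb, rfl⟩ := mem_image.1 hy
      rw [Prod.fst_add, hfst, hfst]
      exact mem_coe.2 (add_mem_add ha hb)
    · intro z hz z' hz' hzz
      obtain ⟨x, hx, y, hy, rfl⟩ := mem_add.1 (mem_coe.1 hz)
      obtain ⟨x', hx', y', hy', rfl⟩ := mem_add.1 (mem_coe.1 hz')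
      rw [hS] at hx hy hx' hy'
      obtain ⟨a, ha, rfl⟩ := mem_image.1 hx
      obtain ⟨b, hb, rfl⟩ := mem_image.1 hy
      obtain ⟨a', ha', rfl⟩ := mem_image.1 hx'
      obtain ⟨b', hb', rfl⟩ := mem_image.1 hy'
      refine Prod.ext hzz ?_
      rw [Prod.fst_add, Prod.fst_add, hfst, hfst, hfst, hfst] at hzz
      rw [Prod.snd_add, Prod.snd_add, hsnd, hsnd, hsnd, hsnd]
      exact hg₀.add_eq_add (mem_coe.2 ha) (mem_coe.2 hb) (mem_coe.2 ha') (mem_coe.2 hb') hzz
  have hSK : ((S + S).card : ℝ) ≤ K * S.card := by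
    rw [hSc]
    exact le_trans (by exact_mod_cast hSS) hK
  obtain ⟨π, hπ⟩ : ∃ π : Γ × W₀ →+ W₀, π = AddMonoidHom.snd Γ W₀ := ⟨_, rfl⟩
  have hπs : ∀ z, π z = z.2 := fun z => by rw [hπ]; rfl
  obtain ⟨t, hLne, hLK, hSt⟩ := exists_level π hSne hSK hε
  obtain ⟨L, hL⟩ : ∃ L, L = lev π S t := ⟨_, rfl⟩
  rw [← hL] at hLne hLK hSt
  obtain ⟨L', hL'L, hL'ne, hLs, hLr, -⟩ := weak_pfr.{w, w} (A := L) (fun a b hab =>
    nsmul_right_injective (M := W₀) (two_ne_zero) hab) hLne hLK hε hε1
  have hid : IsAddFreimanHom 2 (L : Set W₀) Set.univ (fun z : W₀ => z) := by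
    rw [isAddFreimanHom_two]
    exact ⟨fun _ _ => Set.mem_univ _, fun _ _ _ _ _ _ _ _ h => h⟩
  have hr := hLr W₀ (fun z => z) hid
  obtain ⟨S', hS'⟩ : ∃ S', S' = S.filter fun s => π s ∈ L' := ⟨_, rfl⟩
  have hS'S : S' ⊆ S := by rw [hS']; exact filter_subset _ _
  have hS'c : t * L'.card ≤ S'.card := by
    rw [hS']
    exact card_preimage_ge π S (hL'L.trans (le_of_eq hL))
  have hform : ∀ z ∈ S', z.2 = g₀ z.1 ∧ z.2 ∈ L' := by
    intro z hz
    have h7 := hS'S hz
    rw [hS', mem_filter, hπs] at hz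
    refine ⟨?_, hz.2⟩
    rw [hS] at h7
    obtain ⟨a, ha, rfl⟩ := mem_image.1 h7
    rw [hsnd, hfst]
  have hA'c : (S'.image Prod.fst).card = S'.card := by
    refine card_image_of_injOn ?_
    intro z hz z' hz' hzz
    refine Prod.ext hzz ?_
    rw [(hform z hz).1, (hform z' hz').1]
    exact congrArg g₀ hzz
  have hA'A : S'.image Prod.fst ⊆ A := by
    intro a ha
    obtain ⟨z, hz, rfl⟩ := mem_image.1 ha
    have h7 := hS'S hz
    rw [hS] at h7
    obtain ⟨a', ha', rfl⟩ := mem_image.1 h7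
    rw [hfst]
    exact ha'
  obtain ⟨E, hE⟩ : ∃ E : ℝ, E = 5 * 10 ^ 9 / ε ^ 4 := ⟨_, rfl⟩
  rw [← hE] at hLs
  have hE0 : 0 ≤ E := by rw [hE]; positivity
  have hsize0 : (A.card : ℝ) ≤ (2 * K) ^ (E + 2 + 1 / ε) * (S'.image Prod.fst).card := by
    rw [hA'c, ← hSc, Real.rpow_add (by positivity), Real.rpow_add (by positivity)]
    have h1 : (2 * K) ^ (2 : ℝ) = (2 * K) ^ 2 := Real.rpow_two _
    rw [h1]
    have h2 : (t : ℝ) * L'.card ≤ S'.card := by exact_mod_cast hS'c
    have h3 : 1 / ε ≤ (2 * K) ^ (1 / ε) := by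
      have h4 : (1 : ℝ) ≤ 1 / ε := by rw [le_div_iff₀ hε]; linarith
      have h5 := one_add_mul_self_le_rpow_one_add (s := 1) (by norm_num) h4
      calc 1 / ε ≤ 1 + 1 / ε * 1 := by linarith
        _ ≤ (1 + 1) ^ (1 / ε) := h5
        _ ≤ (2 * K) ^ (1 / ε) :=
          Real.rpow_le_rpow (by norm_num) (by linarith) (by positivity)
    have h6 : ((1 + ε) * K) ^ E ≤ (2 * K) ^ E :=
      Real.rpow_le_rpow (by positivity) (mul_le_mul_of_nonneg_right (by linarith) hK0.le) hE0
    have h7 : (1 + ε) ^ 2 * K ≤ (2 * K) ^ 2 := by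
      have h9 : (1 + ε) ^ 2 ≤ 2 ^ 2 := pow_le_pow_left₀ (by linarith) (by linarith) 2
      have h10 := mul_le_mul_of_nonneg_right h9 hK0.le
      nlinarith
    have h8 : (S.card : ℝ) ≤ 1 / ε * ((1 + ε) ^ 2 * K * (t * L.card)) := by
      rw [one_div, inv_mul_eq_div, le_div_iff₀ hε]
      linarith
    calc (S.card : ℝ) ≤ 1 / ε * ((1 + ε) ^ 2 * K * (t * L.card)) := h8
      _ ≤ (2 * K) ^ (1 / ε) * ((2 * K) ^ 2 * (t * ((2 * K) ^ E * L'.card))) := by
        refine mul_le_mul h3 (mul_le_mul h7 (mul_le_mul_of_nonneg_left (hLs.trans ?_)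
          (by positivity)) (by positivity) (by positivity)) (by positivity) (by positivity)
        exact mul_le_mul_of_nonneg_right h6 (by positivity)
      _ = (2 * K) ^ E * (2 * K) ^ 2 * (2 * K) ^ (1 / ε) * (t * L'.card) := by ring
      _ ≤ _ := mul_le_mul_of_nonneg_left h2 (by positivity)
  have hexp : E + 3 + 1 / ε ≤ 6 * 10 ^ 9 / ε ^ 4 := by
    have h1 : ε ^ 4 ≤ 1 := pow_le_one₀ hε.le hε1
    have h2 : ε ^ 3 ≤ 1 := pow_le_one₀ hε.le hε1
    have h3 : 1 / ε = ε ^ 3 / ε ^ 4 := by field_simp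
    rw [hE, h3, le_div_iff₀ (by positivity)]
    have h4 : (5 * 10 ^ 9 / ε ^ 4 + 3 + ε ^ 3 / ε ^ 4) * ε ^ 4 =
        5 * 10 ^ 9 + 3 * ε ^ 4 + ε ^ 3 := by field_simp
    rw [h4]
    linarith
  have hKe : (2 * K) ^ (E + 2 + 1 / ε) ≤ (2 * K) ^ (6 * 10 ^ 9 / ε ^ 4 : ℝ) :=
    Real.rpow_le_rpow_of_exponent_le (by linarith) (by linarith)
  have hsize : (A.card : ℝ) ≤ (2 * K) ^ (6 * 10 ^ 9 / ε ^ 4 : ℝ) * (S'.image Prod.fst).card :=
    hsize0.trans (mul_le_mul_of_nonneg_right hKe (by positivity))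
  have hS'ne : S'.Nonempty := by
    obtain ⟨z, hz⟩ := hL'ne
    have h1 := hL'L hz
    rw [hL, mem_lev] at h1
    obtain ⟨s, hs, hsz⟩ := mem_image.1 h1.1
    refine ⟨s, ?_⟩
    rw [hS', mem_filter, hsz]
    exact ⟨hs, hz⟩
  refine ⟨S'.image Prod.fst, hA'A, hS'ne.image _, hsize, ?_, ?_⟩
  · intro W _ _ g hg
    have h7 := huniv W g hg _ hA'A
    have h8 : rk g₀ ((S'.image Prod.fst : Finset Γ) : Set Γ) ≤
        rk (fun z : W₀ => z) (L' : Set W₀) := by
      unfold rk
      have f1 : Module.Finite ℤ (Submodule.span ℤ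
          ((fun z : W₀ => z) '' (L' : Set W₀) - (fun z : W₀ => z) '' (L' : Set W₀))) :=
        fin_span (fun z : W₀ => z) L'
      have h9 : g₀ '' ((S'.image Prod.fst : Finset Γ) : Set Γ) ⊆
          (fun z : W₀ => z) '' (L' : Set W₀) := by
        rintro _ ⟨a, ha, rfl⟩
        rw [coe_image] at ha
        obtain ⟨z, hz, rfl⟩ := ha
        have h10 := hform z (mem_coe.1 hz)
        rw [← h10.1]
        exact ⟨z.2, mem_coe.2 h10.2, rfl⟩
      exact Submodule.finrank_mono (Submodule.span_mono (Set.sub_subset_sub h9 h9))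
    refine le_trans (mul_le_mul_of_nonneg_right ?_ (Real.log_nonneg (by norm_num))) hr
    exact_mod_cast h7.trans h8
  · have h8 : ((A + S'.image Prod.fst).card : ℝ) ≤
        (2 * K) ^ (6 * 10 ^ 9 / ε ^ 4 : ℝ) * (S'.image Prod.fst).card := by
      have h9 : ((A + S'.image Prod.fst).card : ℝ) ≤ (A + A).card := by
        exact_mod_cast card_le_card (add_subset_add_left hA'A)
      calc ((A + S'.image Prod.fst).card : ℝ) ≤ K * A.card := h9.trans hK
        _ ≤ (2 * K) * A.card := mul_le_mul_of_nonneg_right (by linarith) (by positivity)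
        _ ≤ (2 * K) * ((2 * K) ^ (E + 2 + 1 / ε) * (S'.image Prod.fst).card) :=
          mul_le_mul_of_nonneg_left hsize0 (by positivity)
        _ = (2 * K) ^ (E + 2 + 1 / ε + 1) * (S'.image Prod.fst).card := by
          rw [Real.rpow_add (by positivity) _ 1, Real.rpow_one]
          ring
        _ ≤ _ := by
          refine mul_le_mul_of_nonneg_right (Real.rpow_le_rpow_of_exponent_le (by linarith) ?_)
            (by positivity)
          linarith
    obtain ⟨F, hFA, hF, hcov⟩ := ruzsa_covering_add (hS'ne.image _) h8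
    exact ⟨F, hFA, hF, hcov⟩

end gen

end Pool.Agent.Run7.h127.SD
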