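import Pool.Agent.Run7.h127.SD.Single

/-!
# Sets of small doubling: dilates of Petridis subsets and the sharp dimension
-/

set_option autoImplicit false
set_option linter.unusedSectionVars false

namespace Pool.Agent.Run7.h127.SD

open Finset
open scoped Pointwise

universe u v w

section petridis

variable {Γ : Type u} [AddCommGroup Γ] [DecidableEq Γ]

/-- the dilate by `2 ^ k` -/
def dil (k : ℕ) (S : Finset Γ) : Finset Γ := S.image fun a => 2 ^ k • a

lemma inj_dil (hΓ : ∀ a b : Γ, 2 • a = 2 • b → a = b) (k : ℕ) (a b : Γ)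
    (hab : 2 ^ k • a = 2 ^ k • b) : a = b := by
  induction k with
  | zero => simpa using hab
  | succ k ih =>
    refine ih (hΓ _ _ ?_)
    rwa [pow_succ', mul_nsmul', mul_nsmul'] at hab

lemma card_dil' (hΓ : ∀ a b : Γ, 2 • a = 2 • b → a = b) (k : ℕ) (S : Finset Γ) :
    (dil k S).card = S.card :=
  card_image_of_injective _ fun a b hab => inj_dil hΓ k a b hab

lemma dil_add (k : ℕ) (S T : Finset Γ) : dil k (S + T) = dil k S + dil k T := by
  unfold dil
  exact image_add (nsmulAddMonoidHom (α := Γ) (2 ^ k))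

/-- **Petridis subsets have small sums of dilates.** -/
theorem exists_dil (hΓ : ∀ a b : Γ, 2 • a = 2 • b → a = b) {A : Finset Γ} (hA : A.Nonempty) {K : ℝ}
    (hK : ((A + A).card : ℝ) ≤ K * A.card) :
    ∃ X ⊆ A, X.Nonempty ∧ (A.card : ℝ) ≤ K * X.card ∧
      ∀ k : ℕ, ((X + X.image fun a => 2 ^ k • a).card : ℝ) ≤ K ^ (k + 1) * X.card := by
  have hN : (0 : ℝ) < A.card := by exact_mod_cast card_pos.2 hA
  obtain ⟨X, hX, hmin⟩ := (A.powerset.filter fun X => X.Nonempty).exists_min_image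
    (fun X => ((X + A).card : ℝ) / X.card)
    ⟨A, mem_filter.2 ⟨mem_powerset_self _, hA⟩⟩
  rw [mem_filter, mem_powerset] at hX
  obtain ⟨hXA, hX0⟩ := hX
  have hM : (0 : ℝ) < X.card := by exact_mod_cast card_pos.2 hX0
  have h1 : ((X + A).card : ℝ) ≤ K * X.card := by
    have h2 := hmin A (mem_filter.2 ⟨mem_powerset_self _, hA⟩)
    have h3 : ((A + A).card : ℝ) / A.card ≤ K := by
      rw [div_le_iff₀ hN]
      exact hK
    have h4 := h2.trans h3
    rwa [div_le_iff₀ hM] at h4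
  have h2 : ∀ Y ⊆ X, (X + A).card * Y.card ≤ (Y + A).card * X.card := by
    intro Y hY
    rcases Y.eq_empty_or_nonempty with rfl | hY0
    · simp
    · have hY1 : (0 : ℝ) < Y.card := by exact_mod_cast card_pos.2 hY0
      have h3 := hmin Y (mem_filter.2 ⟨mem_powerset.2 (hY.trans hXA), hY0⟩)
      rw [div_le_div_iff₀ hM hY1] at h3
      exact_mod_cast h3
  have hK0 : 0 ≤ K := by
    by_contra h3
    push Not at h3
    have h4 : K * X.card < 0 := mul_neg_of_neg_of_pos h3 hM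
    have h5 : (0 : ℝ) ≤ (X + A).card := by positivity
    linarith
  have step : ∀ (j : ℕ) (C : Finset Γ),
      ((C + dil j X + dil j A).card : ℝ) ≤ K * (C + dil j X).card := by
    intro j C
    have h3 := pluennecke_petridis_inequality_add (A := dil j X) (B := dil j A) C (by
      intro Y hY
      obtain ⟨Y', hY', rfl⟩ := subset_image_iff.1 hY
      have h4 := h2 Y' hY'
      have e1 : (Y'.image fun a => 2 ^ j • a) = dil j Y' := rfl
      rw [e1, ← dil_add, ← dil_add, card_dil' hΓ, card_dil' hΓ, card_dil' hΓ, card_dil' hΓ]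
      exact h4)
    rw [← dil_add j X A, card_dil' hΓ, card_dil' hΓ] at h3
    have h4 : ((C + dil j X + dil j A).card : ℝ) * X.card ≤
        ((X + A).card : ℝ) * (C + dil j X).card := by
      exact_mod_cast h3
    have h5 : ((C + dil j X + dil j A).card : ℝ) * X.card ≤ (K * (C + dil j X).card) * X.card := by
      refine h4.trans ?_
      have h6 : ((X + A).card : ℝ) * (C + dil j X).card ≤ (K * X.card) * (C + dil j X).card :=
        mul_le_mul_of_nonneg_right h1 (by positivity)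
      linarith
    exact le_of_mul_le_mul_right h5 hM
  have iter : ∀ (C : Finset Γ) (k : ℕ), ((C + dil k X).card : ℝ) ≤ K ^ k * (C + X).card := by
    intro C k
    induction k with
    | zero =>
      have e1 : dil 0 X = X := by
        unfold dil
        simp
      rw [e1]
      simp
    | succ k ih =>
      have h3 : ((C + dil (k + 1) X).card : ℝ) ≤ (C + dil k X + dil k A).card := by
        refine Nat.cast_le.2 (card_le_card fun z hz => ?_)
        obtain ⟨c, hc, w, hw, rfl⟩ := mem_add.1 hz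
        obtain ⟨x, hx, rfl⟩ := mem_image.1 hw
        have h7 : c + 2 ^ (k + 1) • x = c + 2 ^ k • x + 2 ^ k • x := by
          rw [pow_succ, mul_nsmul, two_nsmul, ← add_assoc]
        rw [h7]
        exact add_mem_add (add_mem_add hc (mem_image_of_mem _ hx)) (mem_image_of_mem _ (hXA hx))
      calc ((C + dil (k + 1) X).card : ℝ) ≤ (C + dil k X + dil k A).card := h3
        _ ≤ K * (C + dil k X).card := step k C
        _ ≤ K * (K ^ k * (C + X).card) := mul_le_mul_of_nonneg_left ih hK0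
        _ = _ := by ring
  refine ⟨X, hXA, hX0, ?_, ?_⟩
  · have h3 : (A.card : ℝ) ≤ (X + A).card := by
      exact_mod_cast card_le_card_add_left hX0
    linarith
  · intro k
    have h3 : ((X + X).card : ℝ) ≤ (X + A).card := by
      exact_mod_cast card_le_card (add_subset_add_left hXA)
    calc ((X + X.image fun a => 2 ^ k • a).card : ℝ) ≤ K ^ k * (X + X).card := iter X k
      _ ≤ K ^ k * (K * X.card) := mul_le_mul_of_nonneg_left (h3.trans h1) (by positivity)
      _ = _ := by ring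

/-- **Sets of small doubling have large subsets of dimension almost `log₂ K`.** -/
theorem doubling_sharp (hΓ : ∀ a b : Γ, 2 • a = 2 • b → a = b) {A : Finset Γ}
    (hA : A.Nonempty) {K : ℝ} (hK : ((A + A).card : ℝ) ≤ K * A.card)
    {ε : ℝ} (hε : 0 < ε) (hε1 : ε ≤ 1) :
    ∃ A' A'' : Finset Γ, A' ⊆ A'' ∧ A'' ⊆ A ∧ A'.Nonempty ∧
      (A.card : ℝ) ≤ K ^ (5 * 10 ^ 9 / ε ^ 4) * A'.card ∧
      ∀ (W : Type w) [AddCommGroup W] [IsAddTorsionFree W] (g : Γ → W),
        IsAddFreimanHom (2 ^ ⌈3 / ε⌉₊ + 1) (A'' : Set Γ) Set.univ g →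
        (Module.finrank ℤ (Submodule.span ℤ (g '' (A' : Set Γ) - g '' (A' : Set Γ))) : ℝ) *
            Real.log 2 ≤ (1 + ε) * Real.log K ∧
        (Module.finrank ℤ (Submodule.span ℤ (g '' (A'' : Set Γ) - g '' (A'' : Set Γ))) : ℝ) *
            Real.log 2 ≤ (1 + ε) * Real.log K + Real.log 2 := by
  have hN : (0 : ℝ) < A.card := by exact_mod_cast card_pos.2 hA
  obtain ⟨X, hXA, hX0, hX1, hXk⟩ := exists_dil hΓ hA hK
  have hM : (0 : ℝ) < X.card := by exact_mod_cast card_pos.2 hX0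
  have hK1 : 1 ≤ K := by
    have h1 : (A.card : ℝ) ≤ (A + A).card := by exact_mod_cast card_le_card_add_left hA
    have h2 : 1 * (A.card : ℝ) ≤ K * A.card := by linarith
    exact le_of_mul_le_mul_right h2 hN
  have hK0 : 0 < K := by linarith
  have hlogK0 : 0 ≤ Real.log K := Real.log_nonneg hK1
  obtain ⟨k, hk⟩ : ∃ k : ℕ, k = ⌈3 / ε⌉₊ := ⟨_, rfl⟩
  have hk1 : 3 / ε ≤ k := by rw [hk]; exact Nat.le_ceil _
  have hk2 : (k : ℝ) < 3 / ε + 1 := by rw [hk]; exact Nat.ceil_lt_add_one (by positivity)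
  have hk3 : 3 ≤ 3 / ε := by rw [le_div_iff₀ hε]; linarith
  have hk0 : (0 : ℝ) < k := by linarith
  have hk0' : 1 ≤ k := by exact_mod_cast (by linarith : (1 : ℝ) ≤ k)
  have hq : 2 ≤ 2 ^ k := by
    calc 2 = 2 ^ 1 := (pow_one 2).symm
      _ ≤ 2 ^ k := Nat.pow_le_pow_right (by norm_num) hk0'
  rw [← hk]
  obtain ⟨A', A'', h1, h2, h3, h4, h5, -⟩ := single.{u, w} hq (fun a b => inj_dil hΓ k a b) hX0
    (hXk k) (ε := ε / 3) (by positivity) (by linarith)
  have hlog2 : 0 < Real.log 2 := Real.log_pos (by norm_num)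
  have hlogK : Real.log (K ^ (k + 1)) = (k + 1) * Real.log K := by
    rw [Real.log_pow]
    push_cast
    ring
  have hlogq : Real.log ((2 ^ k : ℕ) : ℝ) = k * Real.log 2 := by
    push_cast
    rw [Real.log_pow]
  have hc : cst (2 ^ k) (ε / 3) = 18 * 10 ^ 7 * (k + 1) / ε ^ 2 := by
    unfold cst
    rw [Nat.log_pow (by norm_num)]
    field_simp
    ring
  have hcc : 1 + (k + 1) * (18 * 10 ^ 7 * (k + 1) / ε ^ 2) ≤ 5 * 10 ^ 9 / ε ^ 4 := by
    have g1 : (k : ℝ) + 1 ≤ 5 / ε := by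
      have : 2 ≤ 2 / ε := by rw [le_div_iff₀ hε]; linarith
      have e1 : 5 / ε = 3 / ε + 2 / ε := by ring
      linarith
    have g2 : ((k : ℝ) + 1) ^ 2 ≤ (5 / ε) ^ 2 := pow_le_pow_left₀ (by positivity) g1 2
    have g3 : ((k : ℝ) + 1) * (18 * 10 ^ 7 * (k + 1) / ε ^ 2) ≤ 45 * 10 ^ 8 / ε ^ 4 := by
      have e1 : ((k : ℝ) + 1) * (18 * 10 ^ 7 * (k + 1) / ε ^ 2) =
          (18 * 10 ^ 7 / ε ^ 2) * ((k : ℝ) + 1) ^ 2 := by ring
      have e2 : (45 : ℝ) * 10 ^ 8 / ε ^ 4 = (18 * 10 ^ 7 / ε ^ 2) * (5 / ε) ^ 2 := by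
        field_simp
        ring
      rw [e1, e2]
      exact mul_le_mul_of_nonneg_left g2 (by positivity)
    have g4 : (1 : ℝ) ≤ 5 * 10 ^ 8 / ε ^ 4 := by
      rw [le_div_iff₀ (by positivity)]
      have : ε ^ 4 ≤ 1 := pow_le_one₀ hε.le hε1
      linarith
    have e3 : (5 : ℝ) * 10 ^ 9 / ε ^ 4 = 45 * 10 ^ 8 / ε ^ 4 + 5 * 10 ^ 8 / ε ^ 4 := by
      rw [← add_div]
      norm_num
    linarith
  have hε3 : (1 + ε / 3) * (k + 1) ≤ (1 + ε) * k := by
    have g1 : 3 ≤ ε * k := by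
      rw [div_le_iff₀ hε] at hk1
      linarith
    nlinarith
  refine ⟨A', A'', h1, h2.trans hXA, h3, ?_, ?_⟩
  · rw [hc, ← Real.rpow_natCast, ← Real.rpow_mul hK0.le] at h4
    push_cast at h4
    calc (A.card : ℝ) ≤ K * X.card := hX1
      _ ≤ K * (K ^ (((k : ℝ) + 1) * (18 * 10 ^ 7 * (k + 1) / ε ^ 2)) * A'.card) :=
        mul_le_mul_of_nonneg_left h4 hK0.le
      _ = K ^ (1 + ((k : ℝ) + 1) * (18 * 10 ^ 7 * (k + 1) / ε ^ 2)) * A'.card := by
        rw [Real.rpow_add hK0, Real.rpow_one]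
        ring
      _ ≤ _ := mul_le_mul_of_nonneg_right
        (Real.rpow_le_rpow_of_exponent_le hK1 hcc) (by positivity)
  · intro W _ _ g hg
    obtain ⟨h6, h7⟩ := h5 W g hg
    rw [hlogK, hlogq] at h6 h7
    have h8 : (1 + ε / 3) * ((k + 1) * Real.log K) ≤ (1 + ε) * k * Real.log K := by
      rw [← mul_assoc]
      exact mul_le_mul_of_nonneg_right hε3 hlogK0
    constructor
    · refine le_of_mul_le_mul_left ?_ hk0
      linarith
    · refine le_of_mul_le_mul_left ?_ hk0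
      linarith

end petridis

end Pool.Agent.Run7.h127.SD
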