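import Pool.Agent.Run7.h127.SD.Doub

/-!
# All Freiman homomorphisms of order two at once
-/

set_option autoImplicit false
set_option linter.unusedSectionVars false

namespace Pool.Agent.Run7.h127.SD

open Finset
open scoped Pointwise

universe u v w

variable {Γ : Type u} [AddCommGroup Γ]

/-- the rank of the group generated by the differences of the values -/
noncomputable def rk {W : Type w} [AddCommGroup W] (g : Γ → W) (S : Set Γ) : ℕ :=
  Module.finrank ℤ (Submodule.span ℤ (g '' S - g '' S))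

lemma fin_span {W : Type w} [AddCommGroup W] (g : Γ → W) (A : Finset Γ) :
    Module.Finite ℤ (Submodule.span ℤ (g '' (A : Set Γ) - g '' (A : Set Γ))) :=
  Module.Finite.span_of_finite ℤ
    ((A.finite_toSet.image g).sub (A.finite_toSet.image g))

lemma rk_le_card {W : Type w} [AddCommGroup W] (g : Γ → W) (A : Finset Γ) :
    rk g (A : Set Γ) ≤ A.card := by
  classical
  unfold rk
  have h1 : Submodule.span ℤ (g '' (A : Set Γ) - g '' (A : Set Γ)) ≤
      Submodule.span ℤ ((A.image g : Finset W) : Set W) := by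
    rw [Submodule.span_le]
    rintro z ⟨_, ⟨a, ha, rfl⟩, _, ⟨a', ha', rfl⟩, rfl⟩
    exact Submodule.sub_mem _ (Submodule.subset_span (mem_coe.2 (mem_image_of_mem g ha)))
      (Submodule.subset_span (mem_coe.2 (mem_image_of_mem g ha')))
  have h2 : Module.Finite ℤ (Submodule.span ℤ ((A.image g : Finset W) : Set W)) :=
    Module.Finite.span_of_finite ℤ (A.image g).finite_toSet
  exact (Submodule.finrank_mono h1).trans
    ((finrank_span_finset_le_card (R := ℤ) (A.image g)).trans card_image_le)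

/-- a surjection of free groups of the same rank is injective -/
lemma inj_of_finrank {N M : Type*} [AddCommGroup N] [AddCommGroup M] [Module.Finite ℤ N]
    [Module.Finite ℤ M] [Module.Free ℤ N] [Module.Free ℤ M] (f : N →ₗ[ℤ] M)
    (hf : Function.Surjective f) (h : Module.finrank ℤ N = Module.finrank ℤ M) :
    Function.Injective f :=
  OrzechProperty.injective_of_surjective_of_injective (LinearEquiv.ofFinrankEq N M h).toLinearMap f
    (LinearEquiv.ofFinrankEq N M h).injective hf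

lemma map_fst_span {W W' : Type*} [AddCommGroup W] [AddCommGroup W'] (g : Γ → W) (g' : Γ → W')
    (S : Set Γ) : (Submodule.span ℤ ((fun a => (g a, g' a)) '' S - (fun a => (g a, g' a)) '' S)).map
      (LinearMap.fst ℤ W W') = Submodule.span ℤ (g '' S - g '' S) := by
  rw [Submodule.map_span]
  congr 1
  ext z
  constructor
  · rintro ⟨_, ⟨_, ⟨a, ha, rfl⟩, _, ⟨a', ha', rfl⟩, rfl⟩, rfl⟩
    exact ⟨g a, ⟨a, ha, rfl⟩, g a', ⟨a', ha', rfl⟩, rfl⟩
  · rintro ⟨_, ⟨a, ha, rfl⟩, _, ⟨a', ha', rfl⟩, rfl⟩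
    exact ⟨_, ⟨_, ⟨a, ha, rfl⟩, _, ⟨a', ha', rfl⟩, rfl⟩, rfl⟩

lemma map_snd_span {W W' : Type*} [AddCommGroup W] [AddCommGroup W'] (g : Γ → W) (g' : Γ → W')
    (S : Set Γ) : (Submodule.span ℤ ((fun a => (g a, g' a)) '' S - (fun a => (g a, g' a)) '' S)).map
      (LinearMap.snd ℤ W W') = Submodule.span ℤ (g' '' S - g' '' S) := by
  rw [Submodule.map_span]
  congr 1
  ext z
  constructor
  · rintro ⟨_, ⟨_, ⟨a, ha, rfl⟩, _, ⟨a', ha', rfl⟩, rfl⟩, rfl⟩
    exact ⟨g' a, ⟨a, ha, rfl⟩, g' a', ⟨a', ha', rfl⟩, rfl⟩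
  · rintro ⟨_, ⟨a, ha, rfl⟩, _, ⟨a', ha', rfl⟩, rfl⟩
    exact ⟨_, ⟨_, ⟨a, ha, rfl⟩, _, ⟨a', ha', rfl⟩, rfl⟩, rfl⟩

/-- **A homomorphism of the largest rank dominates all homomorphisms.** -/
theorem exists_univ (A : Finset Γ) :
    ∃ (W₀ : Type w) (_ : AddCommGroup W₀) (_ : IsAddTorsionFree W₀) (g₀ : Γ → W₀),
      IsAddFreimanHom 2 (A : Set Γ) Set.univ g₀ ∧
      ∀ (W : Type w) [AddCommGroup W] [IsAddTorsionFree W] (g : Γ → W),
        IsAddFreimanHom 2 (A : Set Γ) Set.univ g → ∀ A' : Finset Γ, A' ⊆ A →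
          rk g (A' : Set Γ) ≤ rk g₀ (A' : Set Γ) := by
  obtain ⟨P, hP⟩ : ∃ P : Set ℕ, P = {n | ∃ (W₀ : Type w) (_ : AddCommGroup W₀)
    (_ : IsAddTorsionFree W₀) (g₀ : Γ → W₀), IsAddFreimanHom 2 (A : Set Γ) Set.univ g₀ ∧
      rk g₀ (A : Set Γ) = n} := ⟨_, rfl⟩
  have hne : P.Nonempty := by
    rw [hP]
    exact ⟨_, PUnit, inferInstance, inferInstance, fun _ => 0,
      isAddFreimanHom_two.2 ⟨fun _ _ => Set.mem_univ _, fun _ _ _ _ _ _ _ _ _ => rfl⟩, rfl⟩
  have hbd : BddAbove P := by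
    refine ⟨A.card, ?_⟩
    rw [hP]
    rintro n ⟨W₀, _, _, g₀, -, rfl⟩
    exact rk_le_card g₀ A
  have hmem := Nat.sSup_mem hne hbd
  have hmax : ∀ n ∈ P, n ≤ sSup P := fun n hn => le_csSup hbd hn
  obtain ⟨m, hm⟩ : ∃ m, m = sSup P := ⟨_, rfl⟩
  rw [← hm] at hmem hmax
  rw [hP] at hmem hmax
  obtain ⟨W₀, i1, i2, g₀, hg₀, hrk⟩ := hmem
  refine ⟨W₀, i1, i2, g₀, hg₀, ?_⟩
  intro W _ _ g hg A' hA'
  obtain ⟨G, hG⟩ : ∃ G : Γ → W₀ × W, G = fun a => (g₀ a, g a) := ⟨_, rfl⟩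
  have hGh : IsAddFreimanHom 2 (A : Set Γ) Set.univ G := by
    rw [isAddFreimanHom_two] at hg hg₀ ⊢
    refine ⟨fun _ _ => Set.mem_univ _, ?_⟩
    intro a ha b hb c hc d hd hh
    rw [hG]
    exact Prod.ext (hg₀.2 a ha b hb c hc d hd hh) (hg.2 a ha b hb c hc d hd hh)
  have hGm : rk G (A : Set Γ) ≤ m := hmax _ ⟨W₀ × W, inferInstance, inferInstance, G, hGh, rfl⟩
  have f1 := fin_span G A
  have f2 := fin_span G A'
  have e1 : (Submodule.span ℤ (G '' (A : Set Γ) - G '' (A : Set Γ))).map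
      (LinearMap.fst ℤ W₀ W) = Submodule.span ℤ (g₀ '' (A : Set Γ) - g₀ '' (A : Set Γ)) := by
    rw [hG]
    exact map_fst_span g₀ g _
  have e2 : (Submodule.span ℤ (G '' (A' : Set Γ) - G '' (A' : Set Γ))).map
      (LinearMap.fst ℤ W₀ W) = Submodule.span ℤ (g₀ '' (A' : Set Γ) - g₀ '' (A' : Set Γ)) := by
    rw [hG]
    exact map_fst_span g₀ g _
  have e3 : (Submodule.span ℤ (G '' (A' : Set Γ) - G '' (A' : Set Γ))).map
      (LinearMap.snd ℤ W₀ W) = Submodule.span ℤ (g '' (A' : Set Γ) - g '' (A' : Set Γ)) := by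
    rw [hG]
    exact map_snd_span g₀ g _
  have hinj : Function.Injective ((LinearMap.fst ℤ W₀ W).submoduleMap
      (Submodule.span ℤ (G '' (A : Set Γ) - G '' (A : Set Γ)))) := by
    refine inj_of_finrank _ (LinearMap.submoduleMap_surjective _ _) ?_
    have h1 : Module.finrank ℤ (Submodule.span ℤ (G '' (A : Set Γ) - G '' (A : Set Γ))) ≤ m := hGm
    have h2 : Module.finrank ℤ ((Submodule.span ℤ (G '' (A : Set Γ) - G '' (A : Set Γ))).map
        (LinearMap.fst ℤ W₀ W)) = m := by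
      rw [e1]
      exact hrk
    have h3 := Submodule.finrank_map_le (LinearMap.fst ℤ W₀ W)
      (Submodule.span ℤ (G '' (A : Set Γ) - G '' (A : Set Γ)))
    omega
  have hsub : Submodule.span ℤ (G '' (A' : Set Γ) - G '' (A' : Set Γ)) ≤
      Submodule.span ℤ (G '' (A : Set Γ) - G '' (A : Set Γ)) :=
    Submodule.span_mono (Set.sub_subset_sub (Set.image_mono (coe_subset.2 hA'))
      (Set.image_mono (coe_subset.2 hA')))
  have hinj' : Function.Injective ((LinearMap.fst ℤ W₀ W).submoduleMap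
      (Submodule.span ℤ (G '' (A' : Set Γ) - G '' (A' : Set Γ)))) := by
    intro x y hxy
    have h1 : (LinearMap.fst ℤ W₀ W) (x : W₀ × W) = (LinearMap.fst ℤ W₀ W) (y : W₀ × W) :=
      congrArg Subtype.val hxy
    have h2 : (⟨(x : W₀ × W), hsub x.2⟩ : Submodule.span ℤ (G '' (A : Set Γ) - G '' (A : Set Γ))) =
        ⟨(y : W₀ × W), hsub y.2⟩ := hinj (Subtype.ext h1)
    exact Subtype.ext (Subtype.mk.inj h2)
  have h4 := LinearMap.finrank_le_finrank_of_injective hinj'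
  have h5 := Submodule.finrank_map_le (LinearMap.snd ℤ W₀ W)
    (Submodule.span ℤ (G '' (A' : Set Γ) - G '' (A' : Set Γ)))
  rw [e3] at h5
  rw [e2] at h4
  exact h5.trans h4

/-- **Weak polynomial Freiman–Ruzsa with sharp dimension.** -/
theorem weak_pfr [DecidableEq Γ] (hΓ : ∀ a b : Γ, 2 • a = 2 • b → a = b) {A : Finset Γ}
    (hA : A.Nonempty) {K : ℝ} (hK : ((A + A).card : ℝ) ≤ K * A.card)
    {ε : ℝ} (hε : 0 < ε) (hε1 : ε ≤ 1) :
    ∃ A' : Finset Γ, A' ⊆ A ∧ A'.Nonempty ∧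
      (A.card : ℝ) ≤ K ^ (5 * 10 ^ 9 / ε ^ 4) * A'.card ∧
      (∀ (W : Type w) [AddCommGroup W] [IsAddTorsionFree W] (g : Γ → W),
        IsAddFreimanHom 2 (A : Set Γ) Set.univ g →
          (rk g (A' : Set Γ) : ℝ) * Real.log 2 ≤ (1 + ε) * Real.log K) ∧
      ∃ F : Finset Γ, F ⊆ A ∧ (F.card : ℝ) ≤ K ^ (5 * 10 ^ 9 / ε ^ 4 + 1) ∧ A ⊆ F + (A' - A') := by
  classical
  have hN : (0 : ℝ) < A.card := by exact_mod_cast card_pos.2 hA
  have hK1 : 1 ≤ K := by
    have h1 : (A.card : ℝ) ≤ (A + A).card := by exact_mod_cast card_le_card_add_left hA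
    have h2 : 1 * (A.card : ℝ) ≤ K * A.card := by linarith
    exact le_of_mul_le_mul_right h2 hN
  have hK0 : 0 < K := by linarith
  obtain ⟨W₀, _, _, g₀, hg₀, huniv⟩ := exists_univ.{u, w} A
  obtain ⟨e, he⟩ : ∃ e : Γ → Γ × W₀, e = fun a => (a, g₀ a) := ⟨_, rfl⟩
  have hfst : ∀ a, (e a).1 = a := fun a => by rw [he]
  have hsnd : ∀ a, (e a).2 = g₀ a := fun a => by rw [he]
  have hinj : Function.Injective e := fun a b hab => by
    rw [← hfst a, ← hfst b, hab]
  obtain ⟨S, hS⟩ : ∃ S, S = A.image e := ⟨_, rfl⟩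
  have hSc : S.card = A.card := by rw [hS, card_image_of_injective _ hinj]
  have hSS : (S + S).card ≤ (A + A).card := by
    refine card_le_card_of_injOn Prod.fst ?_ ?_
    · intro z hz
      obtain ⟨x, hx, y, hy, rfl⟩ := mem_add.1 (mem_coe.1 hz)
      rw [hS] at hx hy
      obtain ⟨a, ha, rfl⟩ := mem_image.1 hx
      obtain ⟨b, hb, rfl⟩ := mem_image.1 hy
      rw [Prod.fst_add, hfst, hfst]
      exact mem_coe.2 (add_mem_add ha hb)
    · intro z hz z' hz' hzz
      obtain ⟨x, hx, y, hy, rfl⟩ := mem_add.1 (mem_coe.1 hz)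
      obtain ⟨x', hx', y', hy', rfl⟩ := mem_add.1 (mem_coe.1 hz')
      rw [hS] at hx hy hx' hy'
      obtain ⟨a, ha, rfl⟩ := mem_image.1 hx
      obtain ⟨b, hb, rfl⟩ := mem_image.1 hy
      obtain ⟨a', ha', rfl⟩ := mem_image.1 hx'
      obtain ⟨b', hb', rfl⟩ := mem_image.1 hy'
      refine Prod.ext hzz ?_
      rw [Prod.fst_add, Prod.fst_add, hfst, hfst, hfst, hfst] at hzz
      rw [Prod.snd_add, Prod.snd_add, hsnd, hsnd, hsnd, hsnd]
      exact hg₀.add_eq_add (mem_coe.2 ha) (mem_coe.2 hb) (mem_coe.2 ha') (mem_coe.2 hb') hzz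
  have hSK : ((S + S).card : ℝ) ≤ K * S.card := by
    rw [hSc]
    exact le_trans (by exact_mod_cast hSS) hK
  have hΓW : ∀ x y : Γ × W₀, 2 • x = 2 • y → x = y := by
    intro x y hxy
    refine Prod.ext (hΓ _ _ (congrArg Prod.fst hxy)) ?_
    exact nsmul_right_injective (M := W₀) (two_ne_zero) (congrArg Prod.snd hxy)
  obtain ⟨S', S'', h1, h2, h3, h4, h5⟩ := doubling_sharp.{max u w, w} hΓW (A := S)
    (by rw [hS]; exact hA.image e) hSK hε hε1
  have hsnd' : IsAddFreimanHom (2 ^ ⌈3 / ε⌉₊ + 1) (S'' : Set (Γ × W₀)) Set.univ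
      (Prod.snd : Γ × W₀ → W₀) :=
    AddHomClass.isAddFreimanHom (AddMonoidHom.snd Γ W₀) (fun _ _ => Set.mem_univ _)
  have h6 := (h5 W₀ Prod.snd hsnd').1
  have hS'S : S' ⊆ S := h1.trans h2
  have hform : ∀ z ∈ S', z.2 = g₀ z.1 := by
    intro z hz
    have h7 := hS'S hz
    rw [hS] at h7
    obtain ⟨a, ha, rfl⟩ := mem_image.1 h7
    rw [hsnd, hfst]
  have hA'c : (S'.image Prod.fst).card = S'.card := by
    refine card_image_of_injOn ?_
    intro z hz z' hz' hzz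
    refine Prod.ext hzz ?_
    rw [hform z hz, hform z' hz']
    exact congrArg g₀ hzz
  have hA'A : S'.image Prod.fst ⊆ A := by
    intro a ha
    obtain ⟨z, hz, rfl⟩ := mem_image.1 ha
    have h7 := hS'S hz
    rw [hS] at h7
    obtain ⟨a', ha', rfl⟩ := mem_image.1 h7
    rw [hfst]
    exact ha'
  have hsize : (A.card : ℝ) ≤ K ^ (5 * 10 ^ 9 / ε ^ 4) * (S'.image Prod.fst).card := by
    rw [hA'c, ← hSc]
    exact h4
  refine ⟨S'.image Prod.fst, hA'A, h3.image _, hsize, ?_, ?_⟩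
  · intro W _ _ g hg
    have h7 := huniv W g hg _ hA'A
    have h8 : rk g₀ ((S'.image Prod.fst : Finset Γ) : Set Γ) = Module.finrank ℤ (Submodule.span ℤ
        (Prod.snd '' (S' : Set (Γ × W₀)) - Prod.snd '' (S' : Set (Γ × W₀)))) := by
      unfold rk
      have h9 : g₀ '' ((S'.image Prod.fst : Finset Γ) : Set Γ) =
          Prod.snd '' (S' : Set (Γ × W₀)) := by
        rw [coe_image, Set.image_image]
        exact Set.image_congr fun z hz => (hform z (mem_coe.1 hz)).symm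
      rw [h9]
    rw [h8] at h7
    refine le_trans (mul_le_mul_of_nonneg_right ?_ (Real.log_nonneg (by norm_num))) h6
    exact_mod_cast h7
  · have h8 : ((A + S'.image Prod.fst).card : ℝ) ≤
        K ^ (5 * 10 ^ 9 / ε ^ 4 + 1) * (S'.image Prod.fst).card := by
      have h9 : ((A + S'.image Prod.fst).card : ℝ) ≤ (A + A).card := by
        exact_mod_cast card_le_card (add_subset_add_left hA'A)
      calc ((A + S'.image Prod.fst).card : ℝ) ≤ K * A.card := h9.trans hK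
        _ ≤ K * (K ^ (5 * 10 ^ 9 / ε ^ 4) * (S'.image Prod.fst).card) :=
          mul_le_mul_of_nonneg_left hsize hK0.le
        _ = K ^ (5 * 10 ^ 9 / ε ^ 4 + 1) * (S'.image Prod.fst).card := by
          rw [Real.rpow_add hK0 _ 1, Real.rpow_one]
          ring
    obtain ⟨F, hFA, hF, hcov⟩ := ruzsa_covering_add (h3.image _) h8
    exact ⟨F, hFA, hF, hcov⟩

end Pool.Agent.Run7.h127.SD
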