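import Pool.Agent.Run7.h127.PS.Robust

/-!
# A functional for sums of dilates

`Ph q l e B A` is the mean of the entropies of `b + q a` and `q b + a`, plus `l` times the entropy of
`b + a`, minus the multiple `1 / 2 + l / 2 + e / 2` of `log |B| + log |A|`; `b`, `a` are independent and
uniform on `B`, `A`.  At the minimum every pair of Freiman homomorphisms has small doubling.
-/

set_option autoImplicit false
set_option linter.unusedSectionVars false

namespace Pool.Agent.Run7.h127.SD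

open Finset
open Pool.Agent.Run7.h127.PS (sum_log_cl h_id const_of_h_eq_zero)
open Pool.Agent.Y359.PE (h fc cl mem_cl fc_posR fc_pos fc_le fc_congr h_nonneg cell_left cell_right
  h_swap h_congr h_const h_le_log submod chain avg_cl cl_prod)

universe u v

section general

open scoped Classical

variable {α β M T V₁ V₂ : Type*}

/-- the entropies of the restrictions of `s` to the products of classes -/
lemma fib {B : Finset α} {A : Finset β} (hB : B.Nonempty) (hA : A.Nonempty) (x : α → V₁)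
    (y : β → V₂) (s : α × β → M) (t : α × β → T)
    (h1 : ∀ p ∈ B ×ˢ A, ∀ q ∈ B ×ˢ A, s p = s q → t p = t q)
    (h2 : ∀ p ∈ B ×ˢ A, ∀ q ∈ B ×ˢ A, x p.1 = x q.1 → y p.2 = y q.2 → t p = t q) :
    ∑ u ∈ B, ∑ v ∈ A, h (cl B x u ×ˢ cl A y v) s ≤
      B.card * A.card * (h (B ×ˢ A) s - h (B ×ˢ A) t) := by
  have hN : (0 : ℝ) < A.card := by exact_mod_cast card_pos.2 hA
  have hM : (0 : ℝ) < B.card := by exact_mod_cast card_pos.2 hB
  have h3 := submod (B ×ˢ A) t (fun s => (x s.1, y s.2)) s (by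
      intro p hp q hq hst
      rw [Prod.mk.injEq] at hst
      exact h2 p hp q hq hst.1 hst.2)
  rw [chain (B ×ˢ A) (fun s => (x s.1, y s.2)) s, card_product, sum_product] at h3
  have e1 : h (B ×ˢ A) (fun p => (t p, s p)) = h (B ×ˢ A) s := by
    refine h_congr fun p hp q hq => ?_
    rw [Prod.mk.injEq]
    exact ⟨fun h5 => h5.2, fun h5 => ⟨h1 p hp q hq h5, h5⟩⟩
  rw [e1, div_le_iff₀ (by push_cast; positivity)] at h3
  push_cast at h3
  have e2 : ∑ u ∈ B, ∑ v ∈ A, h (cl B x u ×ˢ cl A y v) s =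
      ∑ u ∈ B, ∑ v ∈ A, h (cl (B ×ˢ A) (fun s => (x s.1, y s.2)) (u, v)) s := by
    refine sum_congr rfl fun u _ => sum_congr rfl fun v _ => ?_
    rw [cl_prod]
  rw [e2]
  linarith

end general

section phi

variable {Γ : Type*} [AddCommGroup Γ]

/-- the functional -/
noncomputable def Ph (q : ℕ) (l e : ℝ) (B A : Finset Γ) : ℝ :=
  (h (B ×ˢ A) (fun s => s.1 + q • s.2) + h (B ×ˢ A) (fun s => q • s.1 + s.2)) / 2 +
    l * h (B ×ˢ A) (fun s => s.1 + s.2) -
    (1 / 2 + l / 2 + e / 2) * (Real.log B.card + Real.log A.card)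

/-- `x`, `y` behave like a homomorphism for the sums `b + a`, `b + q a`, `q b + a` -/
structure Cm {V : Type*} [AddCommGroup V] (q : ℕ) (B A : Finset Γ) (x y : Γ → V) : Prop where
  c0 : ∀ b ∈ B, ∀ a ∈ A, ∀ b' ∈ B, ∀ a' ∈ A, b + a = b' + a' → x b + y a = x b' + y a'
  c1 : ∀ b ∈ B, ∀ a ∈ A, ∀ b' ∈ B, ∀ a' ∈ A, b + q • a = b' + q • a' →
    x b + q • y a = x b' + q • y a'
  c2 : ∀ b ∈ B, ∀ a ∈ A, ∀ b' ∈ B, ∀ a' ∈ A, q • b + a = q • b' + a' →
    q • x b + y a = q • x b' + y a'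

lemma Cm.mono {V : Type*} [AddCommGroup V] {q : ℕ} {B A B' A' : Finset Γ} {x y : Γ → V}
    (hc : Cm q B A x y) (hB : B' ⊆ B) (hA : A' ⊆ A) : Cm q B' A' x y :=
  ⟨fun b hb a ha b' hb' a' ha' => hc.c0 b (hB hb) a (hA ha) b' (hB hb') a' (hA ha'),
   fun b hb a ha b' hb' a' ha' => hc.c1 b (hB hb) a (hA ha) b' (hB hb') a' (hA ha'),
   fun b hb a ha b' hb' a' ha' => hc.c2 b (hB hb) a (hA ha) b' (hB hb') a' (hA ha')⟩

open scoped Classical in
lemma sum_Ph {V : Type*} [AddCommGroup V] {q : ℕ} {l e : ℝ} (hl : 0 ≤ l) {B A : Finset Γ}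
    (hB : B.Nonempty) (hA : A.Nonempty) {x y : Γ → V} (hc : Cm q B A x y) :
    ∑ u ∈ B, ∑ v ∈ A, Ph q l e (cl B x u) (cl A y v) ≤ B.card * A.card *
      (Ph q l e B A - (h (B ×ˢ A) (fun s => x s.1 + q • y s.2) +
        h (B ×ˢ A) (fun s => q • x s.1 + y s.2)) / 2 - l * h (B ×ˢ A) (fun s => x s.1 + y s.2) +
        (1 / 2 + l / 2 + e / 2) * (h B x + h A y)) := by
  have f0 := fib hB hA x y (fun s => s.1 + s.2) (fun s => x s.1 + y s.2)
    (fun p hp r hr hpr => by
      rw [mem_product] at hp hr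
      exact hc.c0 _ hp.1 _ hp.2 _ hr.1 _ hr.2 hpr)
    (fun p _ r _ h3 h4 => by simp only [h3, h4])
  have f1 := fib hB hA x y (fun s => s.1 + q • s.2) (fun s => x s.1 + q • y s.2)
    (fun p hp r hr hpr => by
      rw [mem_product] at hp hr
      exact hc.c1 _ hp.1 _ hp.2 _ hr.1 _ hr.2 hpr)
    (fun p _ r _ h3 h4 => by simp only [h3, h4])
  have f2 := fib hB hA x y (fun s => q • s.1 + s.2) (fun s => q • x s.1 + y s.2)
    (fun p hp r hr hpr => by
      rw [mem_product] at hp hr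
      exact hc.c2 _ hp.1 _ hp.2 _ hr.1 _ hr.2 hpr)
    (fun p _ r _ h3 h4 => by simp only [h3, h4])
  have h2 := sum_log_cl hA y
  have h3 := sum_log_cl hB x
  have h4 : ∑ u ∈ B, ∑ v ∈ A, Ph q l e (cl B x u) (cl A y v) =
      (∑ u ∈ B, ∑ v ∈ A, h (cl B x u ×ˢ cl A y v) (fun s => s.1 + q • s.2) +
        ∑ u ∈ B, ∑ v ∈ A, h (cl B x u ×ˢ cl A y v) (fun s => q • s.1 + s.2)) / 2 +
      l * ∑ u ∈ B, ∑ v ∈ A, h (cl B x u ×ˢ cl A y v) (fun s => s.1 + s.2) -
      (1 / 2 + l / 2 + e / 2) * (A.card * ∑ u ∈ B, Real.log (cl B x u).card +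
        B.card * ∑ v ∈ A, Real.log (cl A y v).card) := by
    have e1 : ∀ u ∈ B, ∑ v ∈ A, Ph q l e (cl B x u) (cl A y v) =
        (∑ v ∈ A, h (cl B x u ×ˢ cl A y v) (fun s => s.1 + q • s.2) +
          ∑ v ∈ A, h (cl B x u ×ˢ cl A y v) (fun s => q • s.1 + s.2)) / 2 +
        l * ∑ v ∈ A, h (cl B x u ×ˢ cl A y v) (fun s => s.1 + s.2) -
        ((1 / 2 + l / 2 + e / 2) * A.card * Real.log (cl B x u).card +
          (1 / 2 + l / 2 + e / 2) * ∑ v ∈ A, Real.log (cl A y v).card) := by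
      intro u _
      unfold Ph
      rw [sum_sub_distrib, sum_add_distrib, ← sum_div, sum_add_distrib, ← mul_sum, ← mul_sum,
        sum_add_distrib, sum_const, nsmul_eq_mul]
      ring
    rw [sum_congr rfl e1, sum_sub_distrib, sum_add_distrib, sum_add_distrib, ← sum_div,
      sum_add_distrib, ← mul_sum, ← mul_sum, sum_const, nsmul_eq_mul]
    ring
  rw [h4, h2, h3]
  have f0' := mul_le_mul_of_nonneg_left f0 hl
  unfold Ph
  nlinarith [f0', f1, f2]

/-- **The minimum of the functional.** -/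
theorem exists_min (q : ℕ) {l e : ℝ} (hl : 0 < l) {B₁ A₁ : Finset Γ} (hB₁ : B₁.Nonempty)
    (hA₁ : A₁.Nonempty) :
    ∃ B ⊆ B₁, ∃ A ⊆ A₁, B.Nonempty ∧ A.Nonempty ∧ Ph q l e B A ≤ Ph q l e B₁ A₁ ∧
      ∀ (V : Type v) [AddCommGroup V] (x y : Γ → V), Cm q B A x y →
        h (B ×ˢ A) (fun s => x s.1 + y s.2) - (h B x + h A y) / 2 ≤
          e / (2 * l) * (h B x + h A y) := by
  classical
  obtain ⟨p, hp, hmin⟩ := ((B₁.powerset ×ˢ A₁.powerset).filter
    (fun p => p.1.Nonempty ∧ p.2.Nonempty)).exists_min_image (fun p => Ph q l e p.1 p.2)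
    ⟨(B₁, A₁), mem_filter.2 ⟨mem_product.2 ⟨mem_powerset_self _, mem_powerset_self _⟩,
      hB₁, hA₁⟩⟩
  obtain ⟨B, A⟩ := p
  rw [mem_filter, mem_product, mem_powerset, mem_powerset] at hp
  obtain ⟨⟨hBB, hAA⟩, hB, hA⟩ := hp
  simp only at hBB hAA hB hA hmin
  refine ⟨B, hBB, A, hAA, hB, hA, ?_, ?_⟩
  · exact hmin (B₁, A₁) (mem_filter.2 ⟨mem_product.2 ⟨mem_powerset_self _,
      mem_powerset_self _⟩, hB₁, hA₁⟩)
  · intro V _ x y hc
    have hN : (0 : ℝ) < A.card := by exact_mod_cast card_pos.2 hA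
    have hM : (0 : ℝ) < B.card := by exact_mod_cast card_pos.2 hB
    have hsum := sum_Ph (e := e) hl.le hB hA hc
    have hlow : B.card * A.card * Ph q l e B A ≤
        ∑ u ∈ B, ∑ v ∈ A, Ph q l e (cl B x u) (cl A y v) := by
      have e1 : (B.card : ℝ) * A.card * Ph q l e B A = ∑ u ∈ B, ∑ v ∈ A, Ph q l e B A := by
        rw [sum_const, sum_const, nsmul_eq_mul, nsmul_eq_mul, mul_assoc]
      rw [e1]
      refine sum_le_sum fun u hu => sum_le_sum fun v hv => ?_
      refine hmin (cl B x u, cl A y v) (mem_filter.2 ⟨mem_product.2 ⟨mem_powerset.2 ?_,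
        mem_powerset.2 ?_⟩, ⟨u, mem_cl.2 ⟨hu, rfl⟩⟩, ⟨v, mem_cl.2 ⟨hv, rfl⟩⟩⟩)
      · exact fun z hz => hBB (mem_cl.1 hz).1
      · exact fun z hz => hAA (mem_cl.1 hz).1
    have h1 := le_of_mul_le_mul_left (hlow.trans hsum) (by positivity)
    have g1 := cell_left B A hA x (fun a => q • y a)
    have g2 := cell_right B A hB (fun b => q • x b) y
    have h2 : l * (h (B ×ˢ A) (fun s => x s.1 + y s.2) - (h B x + h A y) / 2) ≤
        e / 2 * (h B x + h A y) := by
      nlinarith [h1, g1, g2]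
    have h3 : e / (2 * l) * (h B x + h A y) = (e / 2 * (h B x + h A y)) / l := by
      field_simp
    rw [h3, le_div_iff₀ hl]
    linarith

open scoped Classical in
/-- the entropy of `b + q a` and the classes modulo `q` -/
lemma low_one {V : Type*} [AddCommGroup V] {q : ℕ} (hq : ∀ a b : Γ, q • a = q • b → a = b)
    {B A : Finset Γ} (hB : B.Nonempty) (hA : A.Nonempty) {x : Γ → V}
    (hc : ∀ b ∈ B, ∀ a ∈ A, ∀ b' ∈ B, ∀ a' ∈ A, b + q • a = b' + q • a' → x b = x b') :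
    h B x + Real.log A.card ≤ h (B ×ˢ A) (fun s => s.1 + q • s.2) := by
  have hN : (0 : ℝ) < A.card := by exact_mod_cast card_pos.2 hA
  have hM : (0 : ℝ) < B.card := by exact_mod_cast card_pos.2 hB
  have e1 : h (B ×ˢ A) (fun s => (x s.1, s.1 + q • s.2)) =
      h (B ×ˢ A) (fun s => s.1 + q • s.2) := by
    refine h_congr fun p hp r hr => ?_
    rw [mem_product] at hp hr
    rw [Prod.mk.injEq]
    exact ⟨fun h5 => h5.2, fun h5 => ⟨hc _ hp.1 _ hp.2 _ hr.1 _ hr.2 h5, h5⟩⟩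
  have h1 := chain (B ×ˢ A) (fun s => x s.1) (fun s => s.1 + q • s.2)
  rw [e1, card_product] at h1
  have h2 : h B x ≤ h (B ×ˢ A) (fun s => x s.1) := by
    have h3 := cell_left B A hA x (fun _ => (0 : V))
    simp only [add_zero] at h3
    exact h3
  have hid : h A (fun a : Γ => q • a) = Real.log A.card := by
    rw [← h_id hA]
    exact h_congr fun a _ b _ => ⟨fun h3 => hq a b h3, fun h3 => by simp only [h3]⟩
  have h3 : (B.card * A.card : ℝ) * Real.log A.card ≤
      ∑ s ∈ B ×ˢ A, h (cl (B ×ˢ A) (fun s => x s.1) s) (fun s => s.1 + q • s.2) := by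
    have e2 : (B.card * A.card : ℝ) * Real.log A.card = ∑ s ∈ B ×ˢ A, Real.log A.card := by
      rw [sum_const, nsmul_eq_mul, card_product]
      push_cast
      ring
    rw [e2]
    refine sum_le_sum fun s hs => ?_
    rw [mem_product] at hs
    have e3 : cl (B ×ˢ A) (fun s => x s.1) s = cl B x s.1 ×ˢ A := by
      ext t
      rw [mem_cl, mem_product, mem_product, mem_cl]
      tauto
    rw [e3, ← hid]
    exact cell_right (cl B x s.1) A ⟨s.1, mem_cl.2 ⟨hs.1, rfl⟩⟩ (fun b => b) (fun a => q • a)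
  have h4 : Real.log A.card ≤
      (∑ s ∈ B ×ˢ A, h (cl (B ×ˢ A) (fun s => x s.1) s) (fun s => s.1 + q • s.2)) /
        ((B.card * A.card : ℕ) : ℝ) := by
    rw [le_div_iff₀ (by push_cast; positivity)]
    push_cast
    linarith
  linarith

open scoped Classical in
/-- **The lower bound.** -/
theorem low {V : Type*} [AddCommGroup V] {q : ℕ} (hq : ∀ a b : Γ, q • a = q • b → a = b)
    (hV : ∀ w : V, q • w = 0) {l e : ℝ} (hl : 0 ≤ l) {B A : Finset Γ} (hB : B.Nonempty)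
    (hA : A.Nonempty) {x y : Γ → V} (hc : Cm q B A x y) :
    (h B x + h A y) / 2 - e / 2 * (Real.log B.card + Real.log A.card) ≤ Ph q l e B A := by
  have h1 := low_one hq hB hA (x := x) (by
    intro b hb a ha b' hb' a' ha' hh
    have h2 := hc.c1 b hb a ha b' hb' a' ha' hh
    rwa [hV, hV, add_zero, add_zero] at h2)
  have h2 := low_one hq hA hB (x := y) (by
    intro a ha b hb a' ha' b' hb' hh
    have h2 := hc.c2 b hb a ha b' hb' a' ha' (by rw [add_comm, hh, add_comm])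
    rwa [hV, hV, zero_add, zero_add] at h2)
  have h3 : h (A ×ˢ B) (fun s => s.1 + q • s.2) = h (B ×ˢ A) (fun s => q • s.1 + s.2) := by
    rw [h_swap A B (fun a b => a + q • b)]
    congr 1
    funext s
    exact add_comm _ _
  rw [h3] at h2
  have h4 := cell_left B A hA (fun x => x) (fun x => x)
  have h5 := cell_right B A hB (fun x => x) (fun x => x)
  rw [h_id hB] at h4
  rw [h_id hA] at h5
  have h6 : l * ((Real.log B.card + Real.log A.card) / 2) ≤
      l * h (B ×ˢ A) (fun s => s.1 + s.2) := mul_le_mul_of_nonneg_left (by linarith) hl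
  unfold Ph
  linarith

end phi

end Pool.Agent.Run7.h127.SD
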