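import Pool.Agent.Run7.h127.SD.Rank

/-!
# Sums of dilates: pairs of large subsets with a sharp bound for the dimension
-/

set_option autoImplicit false
set_option linter.unusedSectionVars false

namespace Pool.Agent.Run7.h127.SD

open Finset
open scoped Pointwise
open Pool.Agent.Y359.PE (h fc cl mem_cl fc_posR fc_pos fc_le fc_congr h_nonneg cell_left cell_right
  h_swap h_congr h_const h_le_log submod chain avg_cl cl_prod)

universe u v w

variable {Γ : Type u} [AddCommGroup Γ] [DecidableEq Γ]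

omit [AddCommGroup Γ] [DecidableEq Γ] in
/-- the entropy is at most the logarithm of the size of a set containing the values -/
lemma h_le_card {α β : Type*} {S : Finset α} (hS : S.Nonempty) {f : α → β} {T : Finset β}
    (hT : ∀ s ∈ S, f s ∈ T) : h S f ≤ Real.log T.card := by
  classical
  refine (h_le_log hS f).trans (Real.log_le_log (by exact_mod_cast card_pos.2 (hS.image _)) ?_)
  exact_mod_cast card_le_card (fun z hz => by
      obtain ⟨s, hs, rfl⟩ := mem_image.1 hz
      exact hT s hs)

/-- the exponent -/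
noncomputable def cst (q : ℕ) (ε : ℝ) : ℝ := 2 * 10 ^ 7 * (Nat.log 2 q + 1) / ε ^ 2

lemma card_dil {q : ℕ} (hq : ∀ a b : Γ, q • a = q • b → a = b) (A : Finset Γ) :
    (A.image fun a => q • a).card = A.card :=
  card_image_of_injective _ fun a b hab => hq a b hab

/-- the functional for a set with few sums -/
lemma Ph_self {q : ℕ} (hq : ∀ a b : Γ, q • a = q • b → a = b) {l e : ℝ} (hl : 0 ≤ l)
    {A : Finset Γ} (hA : A.Nonempty) {K : ℝ}
    (hK : ((A + A.image fun a => q • a).card : ℝ) ≤ K * A.card) :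
    1 ≤ K ∧ Ph q l e A A ≤ (1 + 2 * l) * Real.log K - e * Real.log A.card := by
  have hN : (0 : ℝ) < A.card := by exact_mod_cast card_pos.2 hA
  have hD : (A.image fun a => q • a).Nonempty := hA.image _
  have hS : (A + A.image fun a => q • a).Nonempty := hA.add hD
  have hS0 : (0 : ℝ) < (A + A.image fun a => q • a).card := by exact_mod_cast card_pos.2 hS
  have hK1 : 1 ≤ K := by
    have h1 : (A.card : ℝ) ≤ (A + A.image fun a => q • a).card := by
      exact_mod_cast card_le_card_add_right hD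
    have h2 : 1 * (A.card : ℝ) ≤ K * A.card := by linarith
    exact le_of_mul_le_mul_right h2 hN
  have hK0 : 0 < K := by linarith
  refine ⟨hK1, ?_⟩
  have hlog : Real.log (A + A.image fun a => q • a).card ≤ Real.log K + Real.log A.card := by
    rw [← Real.log_mul hK0.ne' hN.ne']
    exact Real.log_le_log hS0 hK
  have g1 : h (A ×ˢ A) (fun s => s.1 + q • s.2) ≤ Real.log K + Real.log A.card := by
    refine le_trans (h_le_card (hA.product hA) fun s hs => ?_) hlog
    rw [mem_product] at hs
    exact add_mem_add hs.1 (mem_image_of_mem _ hs.2)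
  have g2 : h (A ×ˢ A) (fun s => q • s.1 + s.2) ≤ Real.log K + Real.log A.card := by
    refine le_trans (h_le_card (hA.product hA) fun s hs => ?_) hlog
    rw [mem_product] at hs
    have h1 := add_mem_add hs.2 (mem_image_of_mem (fun a => q • a) hs.1)
    rwa [add_comm s.2] at h1
  have hAA : ((A + A).card : ℝ) * A.card ≤ (K * A.card) ^ 2 := by
    have h1 := ruzsa_triangle_inequality_add_add_add A (A.image fun a => q • a) A
    rw [card_dil hq, add_comm (A.image fun a => q • a) A] at h1
    have h2 : ((A + A).card : ℝ) * A.card ≤ ((A + A.image fun a => q • a).card : ℝ) *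
        (A + A.image fun a => q • a).card := by exact_mod_cast h1
    refine h2.trans ?_
    rw [sq]
    exact mul_le_mul hK hK hS0.le (by positivity)
  have hAA' : ((A + A).card : ℝ) ≤ K ^ 2 * A.card := by
    have h1 : ((A + A).card : ℝ) * A.card ≤ (K ^ 2 * A.card) * A.card := by
      calc ((A + A).card : ℝ) * A.card ≤ (K * A.card) ^ 2 := hAA
        _ = _ := by ring
    exact le_of_mul_le_mul_right h1 hN
  have g3 : h (A ×ˢ A) (fun s => s.1 + s.2) ≤ 2 * Real.log K + Real.log A.card := by
    have h1 : (0 : ℝ) < (A + A).card := by exact_mod_cast card_pos.2 (hA.add hA)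
    have h2 : Real.log (A + A).card ≤ 2 * Real.log K + Real.log A.card := by
      have h3 := Real.log_le_log h1 hAA'
      rwa [Real.log_mul (by positivity) hN.ne', Real.log_pow] at h3
    refine le_trans (h_le_card (hA.product hA) fun s hs => ?_) h2
    rw [mem_product] at hs
    exact add_mem_add hs.1 hs.2
  have g4 := mul_le_mul_of_nonneg_left g3 hl
  unfold Ph
  linarith

/-- **The pair.** -/
theorem pair {q : ℕ} (hq : 2 ≤ q) (hΓ : ∀ a b : Γ, q • a = q • b → a = b) {A : Finset Γ}
    (hA : A.Nonempty) {K : ℝ} (hK : ((A + A.image fun a => q • a).card : ℝ) ≤ K * A.card)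
    {ε : ℝ} (hε : 0 < ε) (hε1 : ε ≤ 1) :
    ∃ B ⊆ A, ∃ A' ⊆ A, B.Nonempty ∧ A'.Nonempty ∧ (A.card : ℝ) ≤ K ^ (cst q ε) * B.card ∧
      (A.card : ℝ) ≤ K ^ (cst q ε) * A'.card ∧
      ∀ (W : Type w) [AddCommGroup W] [IsAddTorsionFree W] (f g : Γ → W), Cm q B A' f g →
        (Module.finrank ℤ (Submodule.span ℤ (dif B A' f g)) : ℝ) * Real.log q ≤
          (1 + ε) * Real.log K := by
  obtain ⟨t, ht⟩ : ∃ t : ℕ, t = Nat.log 2 q + 1 := ⟨_, rfl⟩
  have ht1 : 1 ≤ t := by omega
  have ht' : (1 : ℝ) ≤ t := by exact_mod_cast ht1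
  have hqt : q ≤ 2 ^ t := by
    rw [ht]
    exact (Nat.lt_pow_succ_log_self (by norm_num) q).le
  obtain ⟨C, hC⟩ : ∃ C : ℝ, C = 328034 * t := ⟨_, rfl⟩
  have hC1 : 328034 ≤ C := by rw [hC]; linarith
  obtain ⟨l, hl⟩ : ∃ l : ℝ, l = ε / 8 := ⟨_, rfl⟩
  obtain ⟨θ, hθ⟩ : ∃ θ : ℝ, θ = ε / (4 * C) := ⟨_, rfl⟩
  obtain ⟨e, he⟩ : ∃ e : ℝ, e = 2 * l * θ := ⟨_, rfl⟩
  have hl0 : 0 < l := by rw [hl]; positivity
  have hθ0 : 0 < θ := by rw [hθ]; positivity
  have he0 : 0 < e := by rw [he]; positivity
  have hCθ : C * θ = ε / 4 := by rw [hθ]; field_simp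
  obtain ⟨hK1, hPh⟩ := Ph_self (e := e) hΓ hl0.le hA hK
  have hL : 0 ≤ Real.log K := Real.log_nonneg hK1
  obtain ⟨B, hBA, A', hAA, hB, hA', hle, hmin⟩ := exists_min.{0, u} q (e := e) hl0 hA hA
  have hN : (0 : ℝ) < A.card := by exact_mod_cast card_pos.2 hA
  have hNB : (0 : ℝ) < B.card := by exact_mod_cast card_pos.2 hB
  have hNA : (0 : ℝ) < A'.card := by exact_mod_cast card_pos.2 hA'
  have hb : Real.log B.card ≤ Real.log A.card :=
    Real.log_le_log hNB (by exact_mod_cast card_le_card hBA)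
  have ha : Real.log A'.card ≤ Real.log A.card :=
    Real.log_le_log hNA (by exact_mod_cast card_le_card hAA)
  have heθ : e / (2 * l) = θ := by rw [he]; field_simp
  rw [heθ] at hmin
  -- the size
  have hsize : e * (Real.log A.card - (Real.log B.card + Real.log A'.card) / 2) ≤
      (1 + 2 * l) * Real.log K := by
    have h1 := low (V := ZMod q) (x := fun _ => 0) (y := fun _ => 0) (e := e) hΓ (fun w => by
      rw [nsmul_eq_mul, ZMod.natCast_self, zero_mul]) hl0.le hB hA'
      ⟨fun _ _ _ _ _ _ _ _ _ => rfl, fun _ _ _ _ _ _ _ _ _ => rfl,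
        fun _ _ _ _ _ _ _ _ _ => rfl⟩
    have h2 := h_nonneg B (fun _ : Γ => (0 : ZMod q))
    have h3 := h_nonneg A' (fun _ : Γ => (0 : ZMod q))
    linarith
  have hcst : (1 + 2 * l) * 2 / e ≤ cst q ε := by
    have h1 : e = ε ^ 2 / (16 * C) := by
      rw [he, hl, hθ]
      field_simp
      ring
    have h2 : (1 + 2 * l) * 2 / e = (1 + 2 * l) * 32 * C / ε ^ 2 := by
      rw [h1]
      field_simp
      ring
    rw [h2]
    unfold cst
    refine div_le_div_of_nonneg_right ?_ (by positivity)
    have h3 : (1 + 2 * l) * 32 * C ≤ (5 / 4) * 32 * C := by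
      refine mul_le_mul_of_nonneg_right ?_ (by linarith)
      refine mul_le_mul_of_nonneg_right ?_ (by norm_num)
      rw [hl]
      linarith
    have h4 : ((Nat.log 2 q : ℝ) + 1) = t := by
      rw [ht]
      push_cast
      ring
    rw [h4]
    refine h3.trans ?_
    rw [hC]
    linarith
  have hsz : ∀ S : Finset Γ, S.Nonempty → S ⊆ A →
      e * (Real.log A.card - Real.log S.card) ≤ 2 * ((1 + 2 * l) * Real.log K) →
      (A.card : ℝ) ≤ K ^ (cst q ε) * S.card := by
    intro S hS _ h1
    have hNS : (0 : ℝ) < S.card := by exact_mod_cast card_pos.2 hS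
    have hK0 : 0 < K := by linarith
    rw [← Real.log_le_log_iff hN (by positivity), Real.log_mul (by positivity) hNS.ne',
      Real.log_rpow hK0]
    have h2 : Real.log A.card - Real.log S.card ≤ (1 + 2 * l) * 2 / e * Real.log K := by
      rw [div_mul_eq_mul_div, le_div_iff₀ he0]
      linarith
    have h3 := mul_le_mul_of_nonneg_right hcst hL
    linarith
  refine ⟨B, hBA, A', hAA, hB, hA', hsz B hB hBA ?_, hsz A' hA' hAA ?_, ?_⟩
  · have h1 : 0 ≤ e * (Real.log A.card - Real.log A'.card) := mul_nonneg he0.le (by linarith)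
    linarith
  · have h1 : 0 ≤ e * (Real.log A.card - Real.log B.card) := mul_nonneg he0.le (by linarith)
    linarith
  · intro W _ _ f g hc
    obtain ⟨x, y, hxy, hr⟩ := rank_le hq ht1 hqt hB hA' hθ0.le (by
      rw [← hC, hCθ]
      linarith) hmin hc
    rw [← hC, hCθ] at hr
    have hqz : NeZero q := ⟨by omega⟩
    have h1 := low (x := x) (y := y) (e := e) hΓ (fun w => by
      funext i
      rw [Pi.smul_apply, nsmul_eq_mul, ZMod.natCast_self, zero_mul]
      rfl) hl0.le hB hA' hxy
    have h2 : (h B x + h A' y) / 2 ≤ (1 + 2 * l) * Real.log K := by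
      have h3 : 0 ≤ e * (Real.log A.card - (Real.log B.card + Real.log A'.card) / 2) :=
        mul_nonneg he0.le (by linarith)
      linarith
    have h4 : (1 + ε / 4) * ((h B x + h A' y) / 2) ≤ (1 + ε / 4) * ((1 + 2 * l) * Real.log K) :=
      mul_le_mul_of_nonneg_left h2 (by positivity)
    refine (hr.trans h4).trans ?_
    rw [← mul_assoc]
    refine mul_le_mul_of_nonneg_right ?_ hL
    rw [hl]
    nlinarith

end Pool.Agent.Run7.h127.SD
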