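import Pool.Agent.TH404.Tor.Bound
import Pool.Agent.Run7.h127.SD.Func

/-!
# Pairs without doubling in all quotients

If the sum of `x` and `y` has almost no doubling in every quotient of a finite group with bounded
exponent, the entropies of `x`, `y` are almost the logarithm of the size of the group.
-/

set_option autoImplicit false
set_option linter.unusedSectionVars false

namespace Pool.Agent.Run7.h127.SD

open Finset
open Pool.Agent.Run7.h127.PS (sum_log_cl h_id const_of_h_eq_zero)
open Pool.Agent.Y359.PE (h fc cl mem_cl fc_posR fc_pos fc_le fc_congr h_nonneg cell_left cell_right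
  h_swap h_congr h_const h_le_log submod chain avg_cl cl_prod)
open H137.PFR (Law push ent conv entMod push_push)

universe u v

section law

open scoped Classical

variable {α β V W : Type*}

/-- the law of `x` on `A` -/
noncomputable def lawF (A : Finset α) (x : α → V) : V → ℝ :=
  fun v => ∑ a ∈ A, if x a = v then (A.card : ℝ)⁻¹ else 0

lemma lawF_eq (A : Finset α) (x : α → V) (v : V) :
    lawF A x v = ((A.filter fun a => x a = v).card : ℝ) * (A.card : ℝ)⁻¹ := by
  unfold lawF
  rw [← sum_filter, sum_const, nsmul_eq_mul]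

variable [Fintype V] [Fintype W]

lemma law_lawF {A : Finset α} (hA : A.Nonempty) (x : α → V) : Law (lawF A x) := by
  have hN : (0 : ℝ) < A.card := by exact_mod_cast card_pos.2 hA
  refine ⟨fun v => sum_nonneg fun a _ => ?_, ?_⟩
  · split_ifs
    · positivity
    · exact le_rfl
  · unfold lawF
    rw [sum_comm]
    have e1 : ∀ a ∈ A, ∑ v : V, (if x a = v then (A.card : ℝ)⁻¹ else 0) = (A.card : ℝ)⁻¹ := by
      intro a _
      rw [sum_ite_eq]
      simp
    rw [sum_congr rfl e1, sum_const, nsmul_eq_mul, mul_inv_cancel₀ hN.ne']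

lemma push_lawF (A : Finset α) (x : α → V) (f : V → W) :
    push (lawF A x) f = lawF A (fun a => f (x a)) := by
  funext w
  unfold push lawF
  have e1 : ∀ v : V, (if f v = w then ∑ a ∈ A, (if x a = v then (A.card : ℝ)⁻¹ else 0) else 0) =
      ∑ a ∈ A, if x a = v then (if f (x a) = w then (A.card : ℝ)⁻¹ else 0) else 0 := by
    intro v
    by_cases h1 : f v = w
    · rw [if_pos h1]
      refine sum_congr rfl fun a _ => ?_
      by_cases h2 : x a = v
      · rw [if_pos h2, if_pos h2, h2, if_pos h1]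
      · rw [if_neg h2, if_neg h2]
    · rw [if_neg h1]
      symm
      refine sum_eq_zero fun a _ => ?_
      by_cases h2 : x a = v
      · rw [if_pos h2, h2, if_neg h1]
      · rw [if_neg h2]
  rw [sum_congr rfl fun v _ => e1 v, sum_comm]
  refine sum_congr rfl fun a _ => ?_
  rw [sum_ite_eq]
  simp

lemma ent_lawF {A : Finset α} (hA : A.Nonempty) (x : α → V) : ent (lawF A x) = h A x := by
  have hN : (0 : ℝ) < A.card := by exact_mod_cast card_pos.2 hA
  unfold ent
  have e1 : ∀ v : V, Real.negMulLog (lawF A x v) =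
      ∑ a ∈ A.filter (fun a => x a = v), (Real.log A.card - Real.log (fc A x a)) / A.card := by
    intro v
    have e2 : ∀ a ∈ A.filter (fun a => x a = v),
        (Real.log A.card - Real.log (fc A x a)) / A.card =
        (Real.log A.card - Real.log (A.filter fun a => x a = v).card) / A.card := by
      intro a ha
      rw [mem_filter] at ha
      have e3 : fc A x a = (A.filter fun a => x a = v).card := by
        unfold fc cl
        rw [ha.2]
      rw [e3]
    rw [sum_congr rfl e2, sum_const, nsmul_eq_mul, lawF_eq]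
    rcases (A.filter fun a => x a = v).eq_empty_or_nonempty with h0 | h0
    · rw [h0]
      simp
    · have hM : (0 : ℝ) < (A.filter fun a => x a = v).card := by exact_mod_cast card_pos.2 h0
      unfold Real.negMulLog
      rw [← div_eq_mul_inv, Real.log_div hM.ne' hN.ne']
      ring
  rw [sum_congr rfl fun v _ => e1 v]
  unfold h
  rw [sum_div]
  exact sum_fiberwise A x _

variable [AddCommGroup V]

lemma conv_lawF (B : Finset β) (A : Finset α) (x : β → V) (y : α → V) :
    conv (lawF B x) (lawF A y) = lawF (B ×ˢ A) (fun s => x s.1 + y s.2) := by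
  unfold conv
  have e1 : H137.PFR.prod (lawF B x) (lawF A y) = lawF (B ×ˢ A) (fun s => (x s.1, y s.2)) := by
    funext p
    unfold H137.PFR.prod lawF
    rw [sum_mul_sum, sum_product, card_product]
    refine sum_congr rfl fun b _ => sum_congr rfl fun a _ => ?_
    obtain ⟨u, v⟩ := p
    simp only [Prod.mk.injEq]
    by_cases h1 : x b = u
    · by_cases h2 : y a = v
      · simp [h1, h2, mul_comm]
      · simp [h2]
    · simp [h1]
  rw [e1, push_lawF]

lemma entMod_lawF {A : Finset α} (hA : A.Nonempty) (x : α → V) (G : AddSubgroup V) :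
    entMod (lawF A x) G = h A (fun a => (QuotientAddGroup.mk (x a) : V ⧸ G)) := by
  unfold entMod H137.PFR.H
  rw [push_lawF, ent_lawF hA]

end law

section dbl

open scoped Classical

variable {α β V : Type*}

/-- the entropy of a product -/
lemma h_prod {V₁ V₂ : Type*} {B : Finset β} {A : Finset α} (hB : B.Nonempty) (hA : A.Nonempty)
    (x : β → V₁) (y : α → V₂) :
    h (B ×ˢ A) (fun s => (x s.1, y s.2)) = h B x + h A y := by
  have hN : (0 : ℝ) < A.card := by exact_mod_cast card_pos.2 hA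
  have hM : (0 : ℝ) < B.card := by exact_mod_cast card_pos.2 hB
  unfold h
  rw [sum_product]
  have e1 : ∀ b ∈ B, ∑ a ∈ A, (Real.log (B ×ˢ A).card -
      Real.log (fc (B ×ˢ A) (fun s => (x s.1, y s.2)) (b, a))) =
      A.card * (Real.log B.card - Real.log (fc B x b)) +
        ∑ a ∈ A, (Real.log A.card - Real.log (fc A y a)) := by
    intro b hb
    rw [← nsmul_eq_mul, ← sum_const, ← sum_add_distrib]
    refine sum_congr rfl fun a ha => ?_
    have h1 := fc_posR (f := x) hb
    have h2 := fc_posR (f := y) ha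
    have e2 : fc (B ×ˢ A) (fun s => (x s.1, y s.2)) (b, a) = fc B x b * fc A y a := by
      unfold fc
      rw [← card_product, cl_prod]
    rw [e2, card_product]
    push_cast
    rw [Real.log_mul hM.ne' hN.ne', Real.log_mul h1.ne' h2.ne']
    ring
  rw [sum_congr rfl e1, sum_add_distrib, ← mul_sum, sum_const, nsmul_eq_mul, card_product]
  push_cast
  field_simp

/-- the entropy after a bijection -/
lemma h_equiv {γ : Type*} {S : Finset α} {S' : Finset β} (e : α ≃ β)
    (he : ∀ a, a ∈ S ↔ e a ∈ S') (f : β → γ) : h S (fun a => f (e a)) = h S' f := by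
  have hc : S.card = S'.card := card_equiv e he
  unfold h
  rw [hc]
  congr 1
  refine sum_equiv e he fun a _ => ?_
  have h1 : fc S (fun a => f (e a)) a = fc S' f (e a) := by
    unfold fc
    refine card_equiv e fun b => ?_
    rw [mem_cl, mem_cl, he]
  rw [h1]

variable [AddCommGroup V]

/-- **Doubling of one variable from the sum of two.** -/
lemma dbl_le {B : Finset β} {A : Finset α} (hB : B.Nonempty) (hA : A.Nonempty)
    (x : β → V) (y : α → V) :
    h (B ×ˢ B) (fun s => x s.1 + x s.2) - h B x ≤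
      2 * (h (B ×ˢ A) (fun s => x s.1 + y s.2) - (h B x + h A y) / 2) := by
  -- the triples `((b, a), b')`
  have h1 := submod ((B ×ˢ A) ×ˢ B) (fun s => (x s.1.1 + y s.1.2) + x s.2)
    (fun s => (x s.1.1 + y s.1.2, x s.2)) (fun s => x s.1.1) (by
      intro p _ r _ hpr
      rw [Prod.mk.injEq] at hpr
      rw [hpr.1, hpr.2])
  have e1 : h ((B ×ˢ A) ×ˢ B) (fun s => ((x s.1.1 + y s.1.2, x s.2), x s.1.1)) =
      (h B x + h A y) + h B x := by
    rw [← h_prod hB hA x y, ← h_prod (hB.product hA) hB (fun s => (x s.1, y s.2)) x]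
    refine h_congr fun p _ r _ => ?_
    simp only [Prod.mk.injEq]
    constructor
    · rintro ⟨⟨h2, h3⟩, h4⟩
      refine ⟨⟨h4, ?_⟩, h3⟩
      rw [h4] at h2
      exact add_left_cancel h2
    · rintro ⟨⟨h2, h3⟩, h4⟩
      refine ⟨⟨?_, h4⟩, h2⟩
      rw [h2, h3]
  have e2 : h ((B ×ˢ A) ×ˢ B) (fun s => (x s.1.1 + y s.1.2, x s.2)) =
      h (B ×ˢ A) (fun s => x s.1 + y s.2) + h B x :=
    h_prod (hB.product hA) hB (fun s => x s.1 + y s.2) x
  have e3 : h ((B ×ˢ A) ×ˢ B) (fun s => ((x s.1.1 + y s.1.2) + x s.2, x s.1.1)) =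
      h (B ×ˢ A) (fun s => x s.1 + y s.2) + h B x := by
    have e4 : h ((B ×ˢ A) ×ˢ B) (fun s => ((x s.1.1 + y s.1.2) + x s.2, x s.1.1)) =
        h ((B ×ˢ A) ×ˢ B) (fun s => (y s.1.2 + x s.2, x s.1.1)) := by
      refine h_congr fun p _ r _ => ?_
      simp only [Prod.mk.injEq]
      constructor
      · rintro ⟨h2, h3⟩
        refine ⟨?_, h3⟩
        rw [h3, add_assoc, add_assoc] at h2
        exact add_left_cancel h2
      · rintro ⟨h2, h3⟩
        refine ⟨?_, h3⟩
        rw [h3, add_assoc, add_assoc, h2]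
    rw [e4]
    have e5 := h_equiv (S := (B ×ˢ A) ×ˢ B) (S' := (B ×ˢ A) ×ˢ B)
      (⟨fun s => ((s.2, s.1.2), s.1.1), fun s => ((s.2, s.1.2), s.1.1), fun _ => rfl, fun _ => rfl⟩ :
        ((β × α) × β) ≃ ((β × α) × β)) (fun s => by
          simp only [Equiv.coe_fn_mk, mem_product]
          tauto) (fun s => (x s.1.1 + y s.1.2, x s.2))
    simp only [Equiv.coe_fn_mk] at e5
    rw [← e2, ← e5]
    refine h_congr fun p _ r _ => ?_
    simp only [Prod.mk.injEq, add_comm (x _) (y _)]
  have h2 : h (B ×ˢ B) (fun s => x s.1 + x s.2) ≤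
      h ((B ×ˢ A) ×ˢ B) (fun s => (x s.1.1 + y s.1.2) + x s.2) := by
    have e5 := h_equiv (S := (B ×ˢ A) ×ˢ B) (S' := (B ×ˢ B) ×ˢ A)
      (⟨fun s => ((s.1.1, s.2), s.1.2), fun s => ((s.1.1, s.2), s.1.2), fun _ => rfl, fun _ => rfl⟩ :
        ((β × α) × β) ≃ ((β × β) × α)) (fun s => by
          simp only [Equiv.coe_fn_mk, mem_product]
          tauto) (fun s => (x s.1.1 + x s.1.2) + y s.2)
    simp only [Equiv.coe_fn_mk] at e5
    have e6 : h ((B ×ˢ A) ×ˢ B) (fun s => (x s.1.1 + y s.1.2) + x s.2) =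
        h ((B ×ˢ A) ×ˢ B) (fun s => (x s.1.1 + x s.2) + y s.1.2) := by
      congr 1
      funext s
      abel
    rw [e6, e5]
    exact cell_left (B ×ˢ B) A hA (fun s => x s.1 + x s.2) y
  rw [e1, e2, e3] at h1
  linarith

/-- the difference of the entropies -/
lemma sub_le_two {B : Finset β} {A : Finset α} (hB : B.Nonempty) (hA : A.Nonempty)
    (x : β → V) (y : α → V) :
    h B x - h A y ≤ 2 * (h (B ×ˢ A) (fun s => x s.1 + y s.2) - (h B x + h A y) / 2) ∧
      h A y - h B x ≤ 2 * (h (B ×ˢ A) (fun s => x s.1 + y s.2) - (h B x + h A y) / 2) := by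
  have h1 := cell_left B A hA x y
  have h2 := cell_right B A hB x y
  constructor <;> linarith

end dbl

section main

open scoped Classical

variable {α : Type*} {β : Type*}

/-- **Entropies in a group of bounded exponent.**  If the sum of `x` and `y` has almost no doubling
in every quotient and `x`, `y` generate, the mean of their entropies is almost `log |V|`. -/
theorem quot_log_le {V : Type v} [AddCommGroup V] [Finite V] {q : ℕ} (hq0 : q ≠ 0)
    (hV : ∀ w : V, q • w = 0) {t : ℕ} (ht : 1 ≤ t) (hqt : q ≤ 2 ^ t) {B : Finset β} {A : Finset α}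
    (hB : B.Nonempty) (hA : A.Nonempty) (x : β → V) (y : α → V) {θ : ℝ} (hθ : 0 ≤ θ)
    (hθ1 : 328034 * t * θ ≤ 1)
    (hD : ∀ G : AddSubgroup V, h (B ×ˢ A) (fun s => (QuotientAddGroup.mk (x s.1) : V ⧸ G) +
        (QuotientAddGroup.mk (y s.2) : V ⧸ G)) -
        (h B (fun b => (QuotientAddGroup.mk (x b) : V ⧸ G)) +
          h A (fun a => (QuotientAddGroup.mk (y a) : V ⧸ G))) / 2 ≤
        θ * (h B (fun b => (QuotientAddGroup.mk (x b) : V ⧸ G)) +
          h A (fun a => (QuotientAddGroup.mk (y a) : V ⧸ G))))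
    (hnd : ∀ G : AddSubgroup V, (∀ b ∈ B, ∀ b' ∈ B, x b - x b' ∈ G) →
      (∀ a ∈ A, ∀ a' ∈ A, y a - y a' ∈ G) → G = ⊤) :
    ∀ n : ℕ, ∀ G : AddSubgroup V, Nat.card (V ⧸ G) ≤ n → Real.log (Nat.card (V ⧸ G)) ≤
      (1 + 328034 * t * θ) * ((h B (fun b => (QuotientAddGroup.mk (x b) : V ⧸ G)) +
          h A (fun a => (QuotientAddGroup.mk (y a) : V ⧸ G))) / 2) := by
  intro n
  induction n with
  | zero =>
    intro G hG
    have := Nat.card_pos (α := V ⧸ G)
    omega
  | succ n ih =>
    intro G hG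
    have ht' : (1 : ℝ) ≤ t := by exact_mod_cast ht
    have hθ2 : θ ≤ 1 / 328034 := by
      have h1 : 328034 * θ ≤ 328034 * t * θ := by
        have : 328034 * θ * 1 ≤ 328034 * θ * t :=
          mul_le_mul_of_nonneg_left ht' (by positivity)
        linarith
      rw [le_div_iff₀ (by norm_num)]
      linarith
    have : NeZero q := ⟨hq0⟩
    let : Fintype (V ⧸ G) := Fintype.ofFinite _
    have hU : ∀ w : V ⧸ G, q • w = 0 := by
      intro w
      obtain ⟨v, rfl⟩ := QuotientAddGroup.mk_surjective w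
      rw [← QuotientAddGroup.mk_nsmul, hV]
      rfl
    let : Module (ZMod q) (V ⧸ G) := AddCommGroup.zmodModule hU
    obtain ⟨X, hX⟩ : ∃ X : β → V ⧸ G, X = fun b => (QuotientAddGroup.mk (x b) : V ⧸ G) := ⟨_, rfl⟩
    obtain ⟨Y, hY⟩ : ∃ Y : α → V ⧸ G, Y = fun a => (QuotientAddGroup.mk (y a) : V ⧸ G) := ⟨_, rfl⟩
    obtain ⟨K, hK1, hK2⟩ := Pool.Agent.TH404.Tor.entropic_marton (m := q) t ht hqt
      (law_lawF hB X)
    rw [conv_lawF, ent_lawF (hB.product hB), ent_lawF hB, entMod_lawF hB] at hK1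
    rw [conv_lawF, ent_lawF (hB.product hB), ent_lawF hB] at hK2
    have hDG := hD G
    have hd := dbl_le hB hA X Y
    have hs := sub_le_two hB hA X Y
    obtain ⟨G', hG'⟩ : ∃ G' : AddSubgroup V, G' = K.comap (QuotientAddGroup.mk' G) := ⟨_, rfl⟩
    have hmk : ∀ v w : V, (QuotientAddGroup.mk v : V ⧸ G') = QuotientAddGroup.mk w ↔
        (QuotientAddGroup.mk (QuotientAddGroup.mk v : V ⧸ G) : (V ⧸ G) ⧸ K) =
          QuotientAddGroup.mk (QuotientAddGroup.mk w : V ⧸ G) := by
      intro v w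
      rw [QuotientAddGroup.eq, QuotientAddGroup.eq, hG', AddSubgroup.mem_comap]
      rfl
    have eB : h B (fun b => (QuotientAddGroup.mk (x b) : V ⧸ G')) =
        h B (fun b => (QuotientAddGroup.mk (X b) : (V ⧸ G) ⧸ K)) := by
      refine h_congr fun p _ r _ => ?_
      rw [hX]
      exact hmk _ _
    have eC : Nat.card (V ⧸ G') = Nat.card ((V ⧸ G) ⧸ K) := by
      rw [← AddSubgroup.index_eq_card, ← AddSubgroup.index_eq_card, hG']
      exact AddSubgroup.index_comap_of_surjective _ (QuotientAddGroup.mk'_surjective G)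
    have eD : Nat.card (V ⧸ G) = Nat.card ((V ⧸ G) ⧸ K) * Nat.card K :=
      AddSubgroup.card_eq_card_quotient_mul_card_addSubgroup K
    have hDG' := hD G'
    have hs' := sub_le_two hB hA (fun b => (QuotientAddGroup.mk (x b) : V ⧸ G'))
      (fun a => (QuotientAddGroup.mk (y a) : V ⧸ G'))
    have n1 := h_nonneg B (fun b => (QuotientAddGroup.mk (x b) : V ⧸ G'))
    have n2 := h_nonneg A (fun a => (QuotientAddGroup.mk (y a) : V ⧸ G'))
    have n3 := h_nonneg B (fun b => (QuotientAddGroup.mk (x b) : V ⧸ G))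
    have n4 := h_nonneg A (fun a => (QuotientAddGroup.mk (y a) : V ⧸ G))
    rw [← eB] at hK1
    rw [hX] at hd hs hK1 hK2
    rw [hY] at hd hs
    obtain ⟨b', hb'⟩ : ∃ z, z = h B (fun b => (QuotientAddGroup.mk (x b) : V ⧸ G')) := ⟨_, rfl⟩
    obtain ⟨a', ha'⟩ : ∃ z, z = h A (fun a => (QuotientAddGroup.mk (y a) : V ⧸ G')) := ⟨_, rfl⟩
    obtain ⟨b₀, hb₀⟩ : ∃ z, z = h B (fun b => (QuotientAddGroup.mk (x b) : V ⧸ G)) := ⟨_, rfl⟩
    obtain ⟨a₀, ha₀⟩ : ∃ z, z = h A (fun a => (QuotientAddGroup.mk (y a) : V ⧸ G)) := ⟨_, rfl⟩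
    obtain ⟨C, hC⟩ : ∃ C : ℝ, C = 20502 * t := ⟨_, rfl⟩
    rw [← hC] at hK1 hK2
    have hC1 : 20502 ≤ C := by rw [hC]; linarith
    have hIH : K ≠ ⊥ → Real.log (Nat.card (V ⧸ G')) ≤ (1 + 328034 * t * θ) * ((b' + a') / 2) := by
      intro hK
      rw [hb', ha']
      refine ih G' ?_
      have h1 : 2 ≤ Nat.card K := by
        have h2 : 0 < Nat.card K := Nat.card_pos
        have h3 : Nat.card K ≠ 1 := fun h4 => hK (AddSubgroup.card_eq_one.1 h4)
        omega
      have h2 : 0 < Nat.card ((V ⧸ G) ⧸ K) := Nat.card_pos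
      rw [eC]
      nlinarith
    rw [← hb', ← ha'] at hDG' hs'
    rw [← hb'] at hK1 n1
    rw [← ha'] at n2
    rw [← hb₀, ← ha₀] at hDG hs hd ⊢
    rw [← hb₀] at hK1 hK2 n3
    rw [← ha₀] at n4
    -- the reals
    have k1 : b' ≤ 2 * C * θ * (b₀ + a₀) := by
      refine hK1.trans ?_
      have : C * (h (B ×ˢ B) (fun s => (QuotientAddGroup.mk (x s.1) : V ⧸ G) +
          QuotientAddGroup.mk (x s.2)) - b₀) ≤ C * (2 * (θ * (b₀ + a₀))) :=
        mul_le_mul_of_nonneg_left (by linarith) (by linarith)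
      linarith
    have k2 : Real.log (Nat.card K) ≤ b₀ + 2 * C * θ * (b₀ + a₀) := by
      have : C * (h (B ×ˢ B) (fun s => (QuotientAddGroup.mk (x s.1) : V ⧸ G) +
          QuotientAddGroup.mk (x s.2)) - b₀) ≤ C * (2 * (θ * (b₀ + a₀))) :=
        mul_le_mul_of_nonneg_left (by linarith) (by linarith)
      linarith
    have k3 : a' - b' ≤ 2 * θ * (b' + a') := by linarith [hs'.2]
    have k4 : b₀ - a₀ ≤ 2 * θ * (b₀ + a₀) := by linarith [hs.1]
    have k5 : (b' + a') / 2 ≤ 3 * C * θ * (b₀ + a₀) := by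
      have h1 : 2 * θ * (b' + a') ≤ 2 * (1 / 328034) * (b' + a') :=
        mul_le_mul_of_nonneg_right (by linarith) (by linarith)
      have h2 : 0 ≤ C * θ * (b₀ + a₀) := by positivity
      linarith
    have hCθ : C * θ ≤ 1 / 16 := by
      rw [hC]
      have : 0 ≤ (t : ℝ) * θ := by positivity
      linarith
    by_cases hK : K = ⊥
    · -- no entropy at all
      have e4 : b' = b₀ := by
        rw [hb', hb₀]
        refine h_congr fun p _ r _ => ?_
        rw [hmk, QuotientAddGroup.eq, hK, AddSubgroup.mem_bot, neg_add_eq_zero]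
      have e5 : a' = a₀ := by
        rw [ha', ha₀]
        refine h_congr fun p _ r _ => ?_
        rw [hmk, QuotientAddGroup.eq, hK, AddSubgroup.mem_bot, neg_add_eq_zero]
      rw [e4, e5] at k5
      have h1 : C * θ * (b₀ + a₀) ≤ 1 / 16 * (b₀ + a₀) :=
        mul_le_mul_of_nonneg_right hCθ (by linarith)
      have h2 : b₀ + a₀ ≤ 0 := by linarith
      have h3 : G = ⊤ := by
        refine hnd G ?_ ?_
        · intro b hb c hc
          have h4 := const_of_h_eq_zero (A := B)
            (z := fun b => (QuotientAddGroup.mk (x b) : V ⧸ G)) (by linarith) hb hc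
          rw [QuotientAddGroup.eq] at h4
          have h5 := neg_mem h4
          rwa [neg_add_rev, neg_neg, neg_add_eq_sub] at h5
        · intro b hb c hc
          have h4 := const_of_h_eq_zero (A := A)
            (z := fun a => (QuotientAddGroup.mk (y a) : V ⧸ G)) (by linarith) hb hc
          rw [QuotientAddGroup.eq] at h4
          have h5 := neg_mem h4
          rwa [neg_add_rev, neg_neg, neg_add_eq_sub] at h5
      have h4 : Nat.card (V ⧸ G) = 1 := by
        rw [← AddSubgroup.index_eq_card, h3, AddSubgroup.index_top]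
      rw [h4, Nat.cast_one, Real.log_one]
      positivity
    · have h1 := hIH hK
      have h2 : Real.log (Nat.card (V ⧸ G)) =
          Real.log (Nat.card (V ⧸ G')) + Real.log (Nat.card K) := by
        rw [eD, eC]
        push_cast
        rw [Real.log_mul]
        · have := Nat.card_pos (α := (V ⧸ G) ⧸ K)
          positivity
        · have := Nat.card_pos (α := K)
          positivity
      rw [h2]
      have h3 : (1 + 328034 * t * θ) * ((b' + a') / 2) ≤ 2 * (3 * C * θ * (b₀ + a₀)) := by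
        have h4 : (1 + 328034 * t * θ) * ((b' + a') / 2) ≤ 2 * ((b' + a') / 2) :=
          mul_le_mul_of_nonneg_right (by linarith) (by linarith)
        linarith
      have h4 : 328034 * t * θ * ((b₀ + a₀) / 2) = 8 * C * θ * (b₀ + a₀) + (t * θ) * (b₀ + a₀) := by
        rw [hC]
        ring
      have h5 : θ * (b₀ + a₀) ≤ (t * θ) * (b₀ + a₀) := by
        refine mul_le_mul_of_nonneg_right ?_ (by linarith)
        have : 1 * θ ≤ t * θ := mul_le_mul_of_nonneg_right ht' hθ
        linarith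
      linarith

/-- **Entropies in a group of bounded exponent**, for the group itself. -/
theorem log_card_le {V : Type v} [AddCommGroup V] [Finite V] {q : ℕ} (hq0 : q ≠ 0)
    (hV : ∀ w : V, q • w = 0) {t : ℕ} (ht : 1 ≤ t) (hqt : q ≤ 2 ^ t) {B : Finset β} {A : Finset α}
    (hB : B.Nonempty) (hA : A.Nonempty) (x : β → V) (y : α → V) {θ : ℝ} (hθ : 0 ≤ θ)
    (hθ1 : 328034 * t * θ ≤ 1)
    (hD : ∀ G : AddSubgroup V, h (B ×ˢ A) (fun s => (QuotientAddGroup.mk (x s.1) : V ⧸ G) +
        (QuotientAddGroup.mk (y s.2) : V ⧸ G)) -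
        (h B (fun b => (QuotientAddGroup.mk (x b) : V ⧸ G)) +
          h A (fun a => (QuotientAddGroup.mk (y a) : V ⧸ G))) / 2 ≤
        θ * (h B (fun b => (QuotientAddGroup.mk (x b) : V ⧸ G)) +
          h A (fun a => (QuotientAddGroup.mk (y a) : V ⧸ G))))
    (hnd : ∀ G : AddSubgroup V, (∀ b ∈ B, ∀ b' ∈ B, x b - x b' ∈ G) →
      (∀ a ∈ A, ∀ a' ∈ A, y a - y a' ∈ G) → G = ⊤) :
    Real.log (Nat.card V) ≤ (1 + 328034 * t * θ) * ((h B x + h A y) / 2) := by
  have h1 := quot_log_le hq0 hV ht hqt hB hA x y hθ hθ1 hD hnd _ ⊥ le_rfl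
  have e1 : Nat.card (V ⧸ (⊥ : AddSubgroup V)) = Nat.card V := by
    rw [← AddSubgroup.index_eq_card, AddSubgroup.index_bot]
  have e2 : h B (fun b => (QuotientAddGroup.mk (x b) : V ⧸ (⊥ : AddSubgroup V))) = h B x := by
    refine h_congr fun p _ r _ => ?_
    rw [QuotientAddGroup.eq, AddSubgroup.mem_bot, neg_add_eq_zero]
  have e3 : h A (fun a => (QuotientAddGroup.mk (y a) : V ⧸ (⊥ : AddSubgroup V))) = h A y := by
    refine h_congr fun p _ r _ => ?_
    rw [QuotientAddGroup.eq, AddSubgroup.mem_bot, neg_add_eq_zero]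
  rwa [e1, e2, e3] at h1

end main

end Pool.Agent.Run7.h127.SD
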