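import Pool.Agent.Run7.h127.SD.Marton

/-!
# The rank of a pair of Freiman homomorphisms
-/

set_option autoImplicit false
set_option linter.unusedSectionVars false

namespace Pool.Agent.Run7.h127.SD

open Finset
open Pool.Agent.Y359.PE (h fc cl mem_cl fc_posR fc_pos fc_le fc_congr h_nonneg cell_left cell_right
  h_swap h_congr h_const h_le_log submod chain avg_cl cl_prod)

universe u v w

variable {Γ : Type u} [AddCommGroup Γ] {W : Type w} [AddCommGroup W]

/-- the differences of the values -/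
def dif (B A : Finset Γ) (f g : Γ → W) : Set W :=
  {z | (∃ b ∈ B, ∃ b' ∈ B, f b - f b' = z) ∨ ∃ a ∈ A, ∃ a' ∈ A, g a - g a' = z}

lemma finite_dif (B A : Finset Γ) (f g : Γ → W) : (dif B A f g).Finite := by
  classical
  refine Set.Finite.subset (((B ×ˢ B).image fun p => f p.1 - f p.2) ∪
    ((A ×ˢ A).image fun p => g p.1 - g p.2)).finite_toSet ?_
  intro z hz
  rw [mem_coe, mem_union, mem_image, mem_image]
  rcases hz with ⟨b, hb, b', hb', rfl⟩ | ⟨b, hb, b', hb', rfl⟩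
  · exact Or.inl ⟨(b, b'), mem_product.2 ⟨hb, hb'⟩, rfl⟩
  · exact Or.inr ⟨(b, b'), mem_product.2 ⟨hb, hb'⟩, rfl⟩

/-- the reduction modulo `q` of a lattice -/
noncomputable def red (L : Submodule ℤ W) [Module.Free ℤ L] [Module.Finite ℤ L] (q : ℕ) :
    L →+ (Fin (Module.finrank ℤ L) → ZMod q) :=
  ((Int.castAddHom (ZMod q)).compLeft (Fin (Module.finrank ℤ L))).comp
    (Module.finBasis ℤ L).equivFun.toAddEquiv.toAddMonoidHom

lemma red_apply (L : Submodule ℤ W) [Module.Free ℤ L] [Module.Finite ℤ L] (q : ℕ) (l : L)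
    (i : Fin (Module.finrank ℤ L)) :
    red L q l i = (((Module.finBasis ℤ L).equivFun l i : ℤ) : ZMod q) := rfl

lemma red_surj (L : Submodule ℤ W) [Module.Free ℤ L] [Module.Finite ℤ L] (q : ℕ) :
    Function.Surjective (red L q) := by
  intro v
  choose u hu using fun i => ZMod.intCast_surjective (v i)
  refine ⟨(Module.finBasis ℤ L).equivFun.symm u, ?_⟩
  funext i
  rw [red_apply, LinearEquiv.apply_symm_apply, hu]

open scoped Classical in
/-- the element of `L` with value `z` -/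
noncomputable def toL (L : Submodule ℤ W) (z : W) : L := if hz : z ∈ L then ⟨z, hz⟩ else 0

lemma coe_toL {L : Submodule ℤ W} {z : W} (hz : z ∈ L) : (toL L z : W) = z := by
  unfold toL
  rw [dif_pos hz]

lemma coe_nsm {L : Submodule ℤ W} (n : ℕ) (l : L) : ((n • l : L) : W) = n • (l : W) :=
  map_nsmul L.subtype n l

/-- homomorphisms of a pair at the minimum -/
lemma log_card_min {V : Type v} [AddCommGroup V] [Finite V] {q : ℕ} (hq0 : q ≠ 0)
    (hV : ∀ w : V, q • w = 0) {t : ℕ} (ht : 1 ≤ t) (hqt : q ≤ 2 ^ t)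
    {B A : Finset Γ} (hB : B.Nonempty) (hA : A.Nonempty) {θ : ℝ} (hθ : 0 ≤ θ)
    (hθ1 : 328034 * t * θ ≤ 1)
    (hmin : ∀ (V : Type v) [AddCommGroup V] (x y : Γ → V), Cm q B A x y →
      h (B ×ˢ A) (fun s => x s.1 + y s.2) - (h B x + h A y) / 2 ≤ θ * (h B x + h A y))
    {x y : Γ → V} (hcm : Cm q B A x y)
    (hnd : ∀ G : AddSubgroup V, (∀ b ∈ B, ∀ b' ∈ B, x b - x b' ∈ G) →
      (∀ a ∈ A, ∀ a' ∈ A, y a - y a' ∈ G) → G = ⊤) :
    Real.log (Nat.card V) ≤ (1 + 328034 * t * θ) * ((h B x + h A y) / 2) := by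
  refine log_card_le hq0 hV ht hqt hB hA x y hθ hθ1 (fun G => ?_) hnd
  refine hmin (V ⧸ G) (fun b => (QuotientAddGroup.mk (x b) : V ⧸ G))
    (fun a => (QuotientAddGroup.mk (y a) : V ⧸ G)) ⟨?_, ?_, ?_⟩
  · intro b hb a ha b' hb' a' ha' hh
    rw [← QuotientAddGroup.mk_add, hcm.c0 b hb a ha b' hb' a' ha' hh, QuotientAddGroup.mk_add]
  · intro b hb a ha b' hb' a' ha' hh
    rw [← QuotientAddGroup.mk_nsmul, ← QuotientAddGroup.mk_add,
      hcm.c1 b hb a ha b' hb' a' ha' hh, QuotientAddGroup.mk_add, QuotientAddGroup.mk_nsmul]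
  · intro b hb a ha b' hb' a' ha' hh
    rw [← QuotientAddGroup.mk_nsmul, ← QuotientAddGroup.mk_add,
      hcm.c2 b hb a ha b' hb' a' ha' hh, QuotientAddGroup.mk_add, QuotientAddGroup.mk_nsmul]

/-- **The rank and the entropies modulo `q`.** -/
theorem rank_le [IsAddTorsionFree W] {q : ℕ} (hq : 2 ≤ q) {t : ℕ} (ht : 1 ≤ t) (hqt : q ≤ 2 ^ t)
    {B A : Finset Γ} (hB : B.Nonempty) (hA : A.Nonempty) {θ : ℝ} (hθ : 0 ≤ θ)
    (hθ1 : 328034 * t * θ ≤ 1)
    (hmin : ∀ (V : Type) [AddCommGroup V] (x y : Γ → V), Cm q B A x y →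
      h (B ×ˢ A) (fun s => x s.1 + y s.2) - (h B x + h A y) / 2 ≤ θ * (h B x + h A y))
    {f g : Γ → W} (hc : Cm q B A f g) :
    ∃ x y : Γ → (Fin (Module.finrank ℤ (Submodule.span ℤ (dif B A f g))) → ZMod q),
      Cm q B A x y ∧ Module.finrank ℤ (Submodule.span ℤ (dif B A f g)) * Real.log q ≤
        (1 + 328034 * t * θ) * ((h B x + h A y) / 2) := by
  obtain ⟨b₀, hb₀⟩ := hB
  obtain ⟨a₀, ha₀⟩ := hA
  have : Module.Finite ℤ (Submodule.span ℤ (dif B A f g)) :=
    Module.Finite.span_of_finite ℤ (finite_dif B A f g)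
  obtain ⟨L, hL⟩ : ∃ L, L = Submodule.span ℤ (dif B A f g) := ⟨_, rfl⟩
  rw [← hL] at this ⊢
  have hqz : NeZero q := ⟨by omega⟩
  have hfL : ∀ b ∈ B, ∀ b' ∈ B, f b - f b' ∈ L := fun b hb b' hb' => by
    rw [hL]
    exact Submodule.subset_span (Or.inl ⟨b, hb, b', hb', rfl⟩)
  have hgL : ∀ a ∈ A, ∀ a' ∈ A, g a - g a' ∈ L := fun b hb b' hb' => by
    rw [hL]
    exact Submodule.subset_span (Or.inr ⟨b, hb, b', hb', rfl⟩)
  obtain ⟨x, hx⟩ : ∃ x : Γ → (Fin (Module.finrank ℤ L) → ZMod q),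
    x = fun b => red L q (toL L (f b - f b₀)) := ⟨_, rfl⟩
  obtain ⟨y, hy⟩ : ∃ y : Γ → (Fin (Module.finrank ℤ L) → ZMod q),
    y = fun b => red L q (toL L (g b - g a₀)) := ⟨_, rfl⟩
  have hcm : Cm q B A x y := by
    refine ⟨?_, ?_, ?_⟩
    · intro b hb a ha b' hb' a' ha' hh
      have h1 := hc.c0 b hb a ha b' hb' a' ha' hh
      rw [hx, hy]
      simp only
      rw [← map_add, ← map_add]
      congr 1
      refine Subtype.ext ?_
      rw [Submodule.coe_add, Submodule.coe_add, coe_toL (hfL b hb b₀ hb₀),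
        coe_toL (hgL a ha a₀ ha₀), coe_toL (hfL b' hb' b₀ hb₀), coe_toL (hgL a' ha' a₀ ha₀),
        sub_add_sub_comm, h1, sub_add_sub_comm]
    · intro b hb a ha b' hb' a' ha' hh
      have h1 := hc.c1 b hb a ha b' hb' a' ha' hh
      rw [hx, hy]
      simp only
      rw [← map_nsmul, ← map_nsmul, ← map_add, ← map_add]
      congr 1
      refine Subtype.ext ?_
      rw [Submodule.coe_add, Submodule.coe_add, coe_nsm, coe_nsm,
        coe_toL (hfL b hb b₀ hb₀),
        coe_toL (hgL a ha a₀ ha₀), coe_toL (hfL b' hb' b₀ hb₀), coe_toL (hgL a' ha' a₀ ha₀),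
        nsmul_sub, nsmul_sub, sub_add_sub_comm, h1, sub_add_sub_comm]
    · intro b hb a ha b' hb' a' ha' hh
      have h1 := hc.c2 b hb a ha b' hb' a' ha' hh
      rw [hx, hy]
      simp only
      rw [← map_nsmul, ← map_nsmul, ← map_add, ← map_add]
      congr 1
      refine Subtype.ext ?_
      rw [Submodule.coe_add, Submodule.coe_add, coe_nsm, coe_nsm,
        coe_toL (hfL b hb b₀ hb₀),
        coe_toL (hgL a ha a₀ ha₀), coe_toL (hfL b' hb' b₀ hb₀), coe_toL (hgL a' ha' a₀ ha₀),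
        nsmul_sub, nsmul_sub, sub_add_sub_comm, h1, sub_add_sub_comm]
  refine ⟨x, y, hcm, ?_⟩
  have hVq : ∀ w : Fin (Module.finrank ℤ L) → ZMod q, q • w = 0 := by
    intro w
    funext i
    rw [Pi.smul_apply, nsmul_eq_mul, ZMod.natCast_self, zero_mul]
    rfl
  have hnd : ∀ G : AddSubgroup (Fin (Module.finrank ℤ L) → ZMod q),
      (∀ b ∈ B, ∀ b' ∈ B, x b - x b' ∈ G) → (∀ a ∈ A, ∀ a' ∈ A, y a - y a' ∈ G) → G = ⊤ := by
      intro G hG1 hG2
      rw [eq_top_iff]
      intro v _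
      obtain ⟨l, rfl⟩ := red_surj L q v
      have h1 : L ≤ ((AddSubgroup.toIntSubmodule (G.comap (red L q))).map L.subtype) := by
        conv_lhs => rw [hL]
        rw [Submodule.span_le]
        rintro z (⟨b, hb, b', hb', rfl⟩ | ⟨a, ha, a', ha', rfl⟩)
        · refine ⟨⟨f b - f b', hfL b hb b' hb'⟩, ?_, rfl⟩
          change red L q ⟨f b - f b', hfL b hb b' hb'⟩ ∈ G
          have h2 := hG1 b hb b' hb'
          rw [hx] at h2
          simp only at h2
          rw [← map_sub] at h2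
          convert h2 using 2
          refine Subtype.ext ?_
          rw [Submodule.coe_sub, coe_toL (hfL b hb b₀ hb₀), coe_toL (hfL b' hb' b₀ hb₀)]
          exact (sub_sub_sub_cancel_right _ _ _).symm
        · refine ⟨⟨g a - g a', hgL a ha a' ha'⟩, ?_, rfl⟩
          change red L q ⟨g a - g a', hgL a ha a' ha'⟩ ∈ G
          have h2 := hG2 a ha a' ha'
          rw [hy] at h2
          simp only at h2
          rw [← map_sub] at h2
          convert h2 using 2
          refine Subtype.ext ?_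
          rw [Submodule.coe_sub, coe_toL (hgL a ha a₀ ha₀), coe_toL (hgL a' ha' a₀ ha₀)]
          exact (sub_sub_sub_cancel_right _ _ _).symm
      obtain ⟨l', hl', hll⟩ := h1 l.2
      have h3 : l' = l := Subtype.ext hll
      rw [h3] at hl'
      exact hl'
  have key := log_card_min (by omega) hVq ht hqt ⟨b₀, hb₀⟩ ⟨a₀, ha₀⟩ hθ hθ1 hmin hcm hnd
  have e1 : Real.log (Nat.card (Fin (Module.finrank ℤ L) → ZMod q)) =
      Module.finrank ℤ L * Real.log q := by
    rw [Nat.card_fun, Nat.card_zmod, Nat.card_eq_fintype_card, Fintype.card_fin, Nat.cast_pow,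
      Real.log_pow]
  rwa [e1] at key

end Pool.Agent.Run7.h127.SD
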